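import Mathlib

/-!
# Project AC (helper63): `L`-functions with sparse Euler products

Let `F` be an entire `L`-function of degree `d` (functional equation with `d` factors `Γ_ℝ`) whose Dirichlet series
converges absolutely at `b > 1/2`. Then `d (b - 1/2) ≥ 1/2`. Proof: integrate `F(1 - s)`, `s = b + i t`, against a
Gaussian `wt` centred at `t = T` of width `H = T^κ`. Moving the line to the right the integral is `≈ H` (the first
coefficient of `F` is one). On the other hand `F(1 - s) = γ(t) M(t)`, `γ` a product of quotients of Gamma functions, and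
`M` a superposition (of finite mass, `Pm`) of exponentials `exp(i l t)`; by Stirling's formula (`App`) and van der
Corput's second derivative test the integral of each exponential is `O(T^{A + 1/2})`, `A = d (b - 1/2)`.
The statements below are the parts of this proof.
-/

set_option autoImplicit false

namespace Pool.Agent.H63.AC

open Complex MeasureTheory Filter Topology

/-- `f` is (in dual form) the Fourier transform of a measure of mass `≤ C` -/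
def Pm (f : ℝ → ℂ) (C : ℝ) : Prop :=
  Continuous f ∧ (∀ t, ‖f t‖ ≤ C) ∧ ∀ (g : ℝ → ℂ) (D : ℝ), Integrable g →
    (∀ l : ℝ, ‖∫ t, g t * cexp (I * ((l * t : ℝ) : ℂ))‖ ≤ D) → ‖∫ t, g t * f t‖ ≤ C * D

/-- the Gaussian weight, centred at `i T`, of width `H` -/
noncomputable def wt (T H : ℝ) (s : ℂ) : ℂ := cexp ((s - I * T) ^ 2 / (H : ℂ) ^ 2)

/-- `f(t) = C t^A exp(i θ(t)) (1 + O(1/t))` for `t → ∞` -/
def App (f : ℝ → ℂ) (A : ℝ) (θ : ℝ → ℝ) : Prop :=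
  ∃ (C : ℂ) (K t0 : ℝ), 1 ≤ t0 ∧ ∀ t : ℝ, t0 ≤ t →
    ‖f t - C * ((t ^ A : ℝ) : ℂ) * cexp (I * (θ t : ℂ))‖ ≤ K * t ^ (A - 1)

/-- the line `Re s = b` -/
noncomputable def ln (b t : ℝ) : ℂ := (b : ℂ) + t * I

/-- **PM1.** Exponentials, constants, sums, products. Proofs. Exponentials: the hypothesis on `g` is the claim.
Constants: `l = 0`. Sums: add, and use `D ≥ 0` (norms). Products `f1 f2`: for integrable `g` put `g1 = g f1`
(integrable: `f1` is bounded and continuous, `Integrable.mul_bdd` or `Integrable.bdd_mul`); for every `l` the function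
`g(t) exp(i l t)` satisfies the hypothesis with the same `D` (the product of two exponentials is an exponential), so by
the property of `f1` one has `‖∫ g1 exp(i l t)‖ ≤ C1 D`; now use the property of `f2` for `g1`. -/
def S_pm1 : Prop :=
  (∀ l : ℝ, Pm (fun t => cexp (I * ((l * t : ℝ) : ℂ))) 1) ∧ (∀ c : ℂ, Pm (fun _ => c) ‖c‖) ∧
  (∀ (f g : ℝ → ℂ) (C D : ℝ), Pm f C → Pm g D → Pm (fun t => f t + g t) (C + D)) ∧
  (∀ (f g : ℝ → ℂ) (C D : ℝ), Pm f C → Pm g D → Pm (fun t => f t * g t) (C * D))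

/-- **PM2** (may use `S_pm1`). Series, exponentials, geometric series. Proofs. Series: the sum is continuous
(`continuous_tsum`), bounded by `∑ C i`, and `∫ g ∑ f_i = ∑ ∫ g f_i` (`integral_tsum` or
`hasSum_integral_of_summable_integral_norm`), each term is at most `C_i D`. Exponential: `exp f = ∑ f^n / n!` with
`Pm (f^n) (C^n)` by induction from the product rule. Inverse: `(1 - f)⁻¹ = ∑ f^n`. -/
def S_pm2 : Prop :=
  (∀ (ι : Type) [Countable ι] (f : ι → ℝ → ℂ) (C : ι → ℝ), (∀ i, Pm (f i) (C i)) → Summable C →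
    Pm (fun t => ∑' i, f i t) (∑' i, C i)) ∧
  (∀ (f : ℝ → ℂ) (C : ℝ), Pm f C → Pm (fun t => cexp (f t)) (Real.exp C)) ∧
  (∀ (f : ℝ → ℂ) (C : ℝ), Pm f C → C < 1 → Pm (fun t => (1 - f t)⁻¹) (1 - C)⁻¹)

/-- **OSC.** Second derivative test. Use `H10.Dau.corput` of the library module
`Pool.Graph.R_pool_sql_team_79ade240.H10.DauV` on `[T/2, 3T/2]` with `Ψ = wt(b + i t) t^A`,
`G = exp(i (d (t log t - β t) + l t))`, `ω = i (d (log t + 1 - β) + l)`, `ω' = i d / t`, `lam = 2 d / (3 T)`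
(`log y - log x ≥ (y - x) / y`), `K = 3`, `h = lam^(-1/2)`, `A0 = exp(b²) (3T/2)^A`, and `A1 = C T^A`: with
`x = t - T`, `|wt(b + i t)| = exp((b² - x²) / H²)`, `|wt'| ≤ 2 (|b| + |x|) / H² · |wt|`, whose integral over `ℝ` is at
most `2 exp(b²) (|b| √π / H + 1)`, and `∫ A t^(A-1) ≤ (3T/2)^A`. -/
def S_osc : Prop :=
  ∀ (b A β : ℝ) (d : ℕ), 0 ≤ A → 1 ≤ d → ∃ C : ℝ, ∀ T H : ℝ, 1 ≤ H → H ≤ T → ∀ l : ℝ,
    ‖∫ t in (T / 2)..(3 * T / 2), wt T H (ln b t) * ((t ^ A : ℝ) : ℂ) *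
      cexp (I * ((d * (t * Real.log t - β * t) + l * t : ℝ) : ℂ))‖ ≤ C * T ^ (A + 1 / 2)

/-- **UP** (uses `S_osc`). Let `T0 = 2 max(t0, t1, 1)`, `t1` from `App`. Split the integral: `|t - T| ≤ T/2` and the
rest. Rest: `‖wt(b + i t)‖ = exp((b² - (t-T)²)/H²) ≤ exp(b²) exp(-T²/(8H²)) exp(-(t-T)²/(2H²))` for `|t - T| ≥ T/2`,
and `K (1 + |t|) ≤ K (1 + T + |t - T|)`; the integral of `(1 + T + |x|) exp(-x²/(2H²))` is
`(1 + T) √(2π) H + 2 H² ≤ C T²`. Window: `g(t) = γ(t) wt(b + i t)` on `[T/2, 3T/2]`, zero elsewhere; its Fourier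
transforms are bounded, uniformly in `l`, by `|C0| C_osc T^(A+1/2) + ∫ K0 t^(A-1) ‖wt‖ ≤ C' T^(A+1/2)` (for the error
term: `t^(A-1) ≤ (T/2)^(A-1)`, `A ≤ 1`, and `∫ ‖wt‖ ≤ exp(b²) √π H ≤ exp(b²) √π T`). Now `Pm M CM`. -/
def S_up : Prop :=
  ∀ (b A β K t0 CM : ℝ) (d : ℕ) (G γ M : ℝ → ℂ), 0 ≤ A → A ≤ 1 → 1 ≤ d →
    App γ A (fun t => d * (t * Real.log t - β * t)) → ContinuousOn γ (Set.Ici t0) → Pm M CM → Continuous G →
    (∀ t, t0 ≤ t → G t = γ t * M t) → (∀ t, ‖G t‖ ≤ K * (1 + |t|)) →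
    ∃ C T0 : ℝ, ∀ T H : ℝ, T0 ≤ T → 1 ≤ H → H ≤ T →
      ‖∫ t, G t * wt T H (ln b t)‖ ≤ C * T ^ (A + 1 / 2) + C * (T ^ 2 * Real.exp (-(T ^ 2 / (8 * H ^ 2))))

/-- **LOW.** `∫ wt(1 - c - i u) du = √π H` (`GaussianFourier.integral_cexp_neg_mul_sq_add_real_mul_I`, after
`u + T = x`: `(1 - c - i x)² = -(x + i (1 - c))²`) and `∫ ‖wt(1 - c - i u)‖ du = exp((1-c)²/H²) √π H ≤ 2 √π H`, as
`(1-c)² / H² ≤ 1/4 ≤ log 2`. Hence the integral is at least `√π H (1 - 1/2) ≥ H / 2`. -/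
def S_low : Prop :=
  ∀ (U : ℂ → ℂ) (c T H : ℝ), Continuous U → 0 < H → 2 * |c - 1| ≤ H → (∀ u : ℝ, ‖U (ln c u) - 1‖ ≤ 1 / 4) →
    H / 2 ≤ ‖∫ u : ℝ, U (ln c u) * wt T H (1 - ln c u)‖

/-- **SHIFT.** Moving a vertical line: Cauchy on rectangles
(`Complex.integral_boundary_rect_eq_zero_of_differentiableOn`) and the decay
`‖U(v) wt(1 - v)‖ ≤ exp(K (1 + ‖v‖)^(3/2) + ((1 - x)² - (y + T)²) / H²)`, `v = x + i y`; one has
`x^(3/2) ≤ ε x² + ε^(-3)` for `x ≥ 0`, `0 < ε ≤ 1`. -/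
def S_shift : Prop :=
  ∀ (U : ℂ → ℂ) (K : ℝ), Differentiable ℂ U → (∀ s, ‖U s‖ ≤ Real.exp (K * (1 + ‖s‖) ^ (3 / 2 : ℝ))) →
    ∀ a c T H : ℝ, 1 ≤ H →
      ∫ u : ℝ, U (ln a u) * wt T H (1 - ln a u) = ∫ u : ℝ, U (ln c u) * wt T H (1 - ln c u)

/-- **GAM0.** Stirling. Library: `Pool.Agent.TH814.GS.stir_right` (module `Pool.Graph.R_seed8.TH814.GS.Stir`):
`‖sA z / √(2π) - 1‖ ≤ 1 / ‖z‖` for `Re z ≥ 0`, `‖z‖ ≥ 1`, `sA z = Γ(z) exp(-((z - 1/2) log z - z))`. With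
`z = (c + i t)/2 = (i t/2)(1 + c/(i t))`, `z' = (c' - i t)/2 = (-i t/2)(1 - c'/(i t))`, `t → ∞`:
`log z = log(t/2) + i π/2 + log(1 + c/(i t))`, `log z' = log(t/2) - i π/2 + log(1 - c'/(i t))`, and
`(z - 1/2) log z - z - (z' - 1/2) log z' + z' = (A + i t) log(t/2) - i t + const + O(1/t)`. -/
def S_gam0 : Prop :=
  ∀ (c c' : ℂ) (A : ℝ), 0 ≤ c.re → 0 ≤ c'.re → c - c' = ((2 * A : ℝ) : ℂ) →
    App (fun t => Gamma ((c + t * I) / 2) / Gamma ((c' - t * I) / 2)) A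
      (fun t => t * Real.log t - (1 + Real.log 2) * t)

/-- **APP.** Products: `App f A θ`, `App g B ψ` give `App (f g) (A + B) (θ + ψ)`; finite products of the same phase. -/
def S_app : Prop :=
  (∀ (f g : ℝ → ℂ) (A B : ℝ) (θ ψ : ℝ → ℝ), App f A θ → App g B ψ →
    App (fun t => f t * g t) (A + B) (fun t => θ t + ψ t)) ∧
  (∀ (m : ℕ) (f : Fin m → ℝ → ℂ) (A : ℝ) (θ : ℝ → ℝ), (∀ j, App (f j) A θ) →
    App (fun t => ∏ j, f j t) (m * A) (fun t => m * θ t))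

/-- **GAMR** (uses `S_gam0`, `S_app`). Quotients of `Γ_ℝ(s) = π^(-s/2) Γ(s/2)`. For `Re (b + μ) ≥ 0`,
`Re (1 - b + μ) ≥ 0` it is `S_gam0` with `c = b + μ`, `c' = 1 - b + μ`, `A = b - 1/2`, times
`π^(1/2 - s) = π^(1/2 - b) exp(-i t log π)`. In general use `Γ(z) = Γ(z + 1) / z` (`n` times, e.g. induction on `n`
with `Re (b + μ) ≥ -2 n`, `Re (1 - b + μ) ≥ -2 n`), i.e. replace `μ` by `μ + 2`: the factor
`(1 - b - i t + μ) / (b + i t + μ) = -1 + O(1/t)` is `App 0 0`. Second part: for negative `t` use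
`Γ_ℝ(conj s) = conj Γ_ℝ(s)` and the first part for `conj μ`. Third part: no poles for `t > |Im μ|`. -/
def S_gamR : Prop :=
  (∀ (b : ℝ) (μ : ℂ), App (fun t => Gammaℝ (ln b t + μ) / Gammaℝ (1 - ln b t + μ)) (b - 1 / 2)
    (fun t => t * Real.log t - (1 + Real.log (2 * Real.pi)) * t)) ∧
  (∀ (b : ℝ) (μ : ℂ), ∃ K t0 : ℝ, 1 ≤ t0 ∧ ∀ t : ℝ, t0 ≤ |t| →
    ‖Gammaℝ (ln b t + μ) / Gammaℝ (1 - ln b t + μ)‖ ≤ K * |t| ^ (b - 1 / 2)) ∧
  (∀ (b : ℝ) (μ : ℂ), ∃ t0 : ℝ, ContinuousOn (fun t => Gammaℝ (ln b t + μ) / Gammaℝ (1 - ln b t + μ)) (Set.Ici t0))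

end Pool.Agent.H63.AC
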