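import Pool.Agent.H63.AC.Fld
import Pool.Agent.H63.AC.P.Pm1
import Pool.Agent.H63.AC.P.Pm2
import Pool.Agent.H63.AC.P.Osc
import Pool.Agent.H63.AC.P.Up
import Pool.Agent.H63.AC.P.Low
import Pool.Agent.H63.AC.P.Shift
import Pool.Agent.H63.AC.P.Gam0
import Pool.Agent.H63.AC.P.App
import Pool.Agent.H63.AC.P.GamR
import Pool.Agent.H63.AC.P.Deg

set_option autoImplicit false

namespace Pool.Agent.H63.AC

open NumberField IsDedekindDomain
open Pool.Agent.W189.TP (DS)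
open Pool.Agent.TH861.GL3 (PL qq)

/-- **The abscissa of absolute convergence of an entire `L`-function of degree `m` is at least `1/2 + 1/(2m)`.** -/
theorem abscissa {ι κ : Type} [Countable ι] [Fintype κ] {d L : ι → ℝ} {β : κ → ℂ} {q : κ → ℝ} {m : ℕ} {μ : Fin m → ℂ}
    {Q : ℝ} {ω : ℂ} {Ξ : ℂ → ℂ} (h : Dat d L β q m μ Q ω Ξ) {b0 : ℝ} (hb0 : 1 / 2 ≤ b0)
    (hs : ∀ t, b0 < t → Summable fun i => |d i| * Real.exp (-(t * L i))) : 1 / 2 ≤ m * (b0 - 1 / 2) :=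
  h.abscissa P.Pm1.t_pm1 P.Pm2.t_pm2 P.Osc.t_osc P.Up.t_up P.Low.t_low P.Shift.t_shift P.App.t_app
    (P.GamR.t_gamR P.Gam0.t_gam0 P.App.t_app) hb0 hs

/-- **Divergence over the places of prime norm with `|tr α_v| < 1`.** -/
theorem diverge {K : Type} [Field K] [NumberField K] {S : Finset (HeightOneSpectrum (𝓞 K))} {n : ℕ}
    (hn : 2 ≤ n) {α : PL S → Fin n → ℂ} (h : Cuspidal α) {c : ℝ}
    (hc : c < 1 / 2 + 1 / (2 * ((n ^ 2 - 1 : ℕ) * Module.finrank ℚ K))) :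
    ¬ Summable fun v : {v : PL S // (qq v.1).Prime} => sm α v.1 * (qq v.1.1 : ℝ) ^ (-c) :=
  h.diverge P.Pm1.t_pm1 P.Pm2.t_pm2 P.Osc.t_osc P.Up.t_up P.Low.t_low P.Shift.t_shift P.App.t_app
    (P.GamR.t_gamR P.Gam0.t_gam0 P.App.t_app) P.Deg.t_deg hn hc

end Pool.Agent.H63.AC
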