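import Pool.Agent.H63.AC.All
import Pool.Graph.R_seed8.TH861.GL3.Local
import Pool.Graph.R_seed8.TH861.GL3.Count

/-!
# Tempered places of cusp forms on `GL(3)`
-/

set_option autoImplicit false

namespace Pool.Agent.H63.AC

open NumberField IsDedekindDomain Filter Topology
open Pool.Agent.TH861.GL3 (PL qq two_le_qq qq_pos one_lt_qq nontemp_pow finite_nm_le)

variable {K : Type} [Field K] [NumberField K] {S : Finset (HeightOneSpectrum (𝓞 K))}

/-- a small power sum forces temperedness -/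
theorem Cuspidal.tempered_of_small {α : PL S → Fin 3 → ℂ} (h : Cuspidal α) {v : PL S} {k : ℕ}
    (hk : ‖∑ i, α v i ^ k‖ < 1) : Tempered α v := by
  by_contra hcon
  have h1 := nontemp_pow (h.unitary v) hcon k
  have h2 := norm_nonneg (∑ i, α v i ^ k)
  nlinarith

theorem Cuspidal.sm_zero {α : PL S → Fin 3 → ℂ} (h : Cuspidal α) {v : PL S} (hv : ¬ Tempered α v) : sm α v = 0 := by
  refine max_eq_left ?_
  have h1 := nontemp_pow (h.unitary v) hv 1
  simp only [pow_one] at h1
  linarith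

/-- the tempered places of prime norm at most `X` -/
noncomputable def cnt {n : ℕ} (α : PL S → Fin n → ℂ) (X : ℝ) : ℕ :=
  {v : PL S | (qq v.1).Prime ∧ Tempered α v ∧ (qq v.1 : ℝ) ≤ X}.ncard

theorem finite_le (b : ℕ) : {v : PL S | qq v.1 ≤ b}.Finite := by
  have h1 := finite_nm_le (K := K) b
  refine Set.Finite.of_finite_image (f := fun v : PL S => v.1) (h1.subset ?_) (fun v _ w _ hvw => Subtype.ext hvw)
  rintro _ ⟨v, hv, rfl⟩
  exact hv

theorem diverge_tempered {α : PL S → Fin 3 → ℂ} (h : Cuspidal α) {c : ℝ}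
    (hc : c < 1 / 2 + 1 / (16 * Module.finrank ℚ K)) :
    ¬ Summable fun v : {v : PL S // (qq v.1).Prime ∧ Tempered α v} => (qq v.1.1 : ℝ) ^ (-c) := by
  intro hs
  refine diverge (by norm_num) h (c := c) (hc.trans_eq ?_) ?_
  · have : (Module.finrank ℚ K : ℝ) ≠ 0 := by
      exact_mod_cast (Module.finrank_pos (R := ℚ) (M := K)).ne'
    norm_num
    field_simp
    norm_num
  · have h1 := (summable_subtype_iff_indicator (s := {v : PL S | (qq v.1).Prime ∧ Tempered α v})
      (f := fun v : PL S => (qq v.1 : ℝ) ^ (-c))).1 hs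
    have h2 := h1.comp_injective (i := fun v : {v : PL S // (qq v.1).Prime} => v.1) Subtype.val_injective
    refine Summable.of_nonneg_of_le (fun v => mul_nonneg (sm_nonneg α _)
      (by have := (qq_pos v.1.1).le; positivity)) (fun v => ?_) h2
    show sm α v.1 * (qq v.1.1 : ℝ) ^ (-c) ≤ Set.indicator _ _ v.1
    by_cases hv : Tempered α v.1
    · rw [Set.indicator_of_mem (by exact ⟨v.2, hv⟩)]
      exact mul_le_of_le_one_left (by have := (qq_pos v.1.1).le; positivity) (sm_le α _)
    · rw [h.sm_zero hv, zero_mul]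
      exact Set.indicator_nonneg (fun w _ => by have := (qq_pos w.1).le; positivity) _

/-- **Infinitely often there are at least `X^c` tempered places.** -/
theorem count_tempered {α : PL S → Fin 3 → ℂ} (h : Cuspidal α) {c : ℝ}
    (hc : c < 1 / 2 + 1 / (16 * Module.finrank ℚ K)) (X0 : ℝ) : ∃ X : ℝ, X0 ≤ X ∧ X ^ c ≤ cnt α X := by
  by_contra hcon
  push Not at hcon
  obtain ⟨c1, hc1, hc2⟩ := exists_between hc
  obtain ⟨X1, hX1⟩ : ∃ X1 : ℝ, X1 = max X0 1 := ⟨_, rfl⟩
  have hX10 : X0 ≤ X1 := hX1 ▸ le_max_left _ _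
  have hX11 : 1 ≤ X1 := hX1 ▸ le_max_right _ _
  have hfin : ∀ b : ℕ, {v : {v : PL S // (qq v.1).Prime ∧ Tempered α v} | qq v.1.1 ≤ b}.Finite := fun b =>
    Set.Finite.of_finite_image (f := fun v => v.1) ((finite_le b).subset (by
      rintro _ ⟨v, hv, rfl⟩
      exact hv)) (fun v _ w _ hvw => Subtype.ext hvw)
  have hcn : ∀ x : ℝ, 0 ≤ x → {v : {v : PL S // (qq v.1).Prime ∧ Tempered α v} | (qq v.1.1 : ℝ) ≤ x}.ncard = cnt α x := by
    intro x hx
    unfold cnt
    rw [← Set.ncard_image_of_injective _ Subtype.val_injective]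
    congr 1
    ext v
    simp only [Set.mem_image, Set.mem_ofPred_eq, Subtype.exists, exists_and_left, exists_prop, exists_eq_right_right]
    tauto
  have hmono : ∀ x y : ℝ, 0 ≤ y → x ≤ y → cnt α x ≤ cnt α y := by
    intro x y hy hxy
    unfold cnt
    refine Set.ncard_le_ncard (fun v hv => ⟨hv.1, hv.2.1, hv.2.2.trans hxy⟩) ((finite_le ⌊y⌋₊).subset fun v hv => ?_)
    exact Nat.le_floor hv.2.2
  refine diverge_tempered h hc2 (Pool.Agent.W189.TP.summable_of_count
    (N := fun v : {v : PL S // (qq v.1).Prime ∧ Tempered α v} => qq v.1.1)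
    (fun v => one_le_two.trans (two_le_qq v.1.1)) hfin (c := c) (C := cnt α X1 * X1 ^ |c| + 1) (fun x hx => ?_) hc1)
  have hx0 : 0 ≤ x := by linarith
  rw [hcn x hx0]
  have hpos : 0 < x ^ c := Real.rpow_pos_of_pos (by linarith) c
  rcases le_total x X1 with h1 | h1
  · have h2 : (cnt α x : ℝ) ≤ cnt α X1 := by exact_mod_cast hmono x X1 (by linarith) h1
    have h3 : 1 ≤ X1 ^ |c| * x ^ c := by
      have h4 : X1 ^ (-|c|) ≤ x ^ c := by
        rcases le_total 0 c with h5 | h5
        · have h6 : X1 ^ (-|c|) ≤ 1 := Real.rpow_le_one_of_one_le_of_nonpos hX11 (by simp)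
          exact h6.trans (Real.one_le_rpow hx h5)
        · rw [abs_of_nonpos h5, neg_neg]
          exact Real.rpow_le_rpow_of_nonpos (by linarith) h1 h5
      calc (1 : ℝ) = X1 ^ |c| * X1 ^ (-|c|) := by
            rw [← Real.rpow_add (by linarith), add_neg_cancel, Real.rpow_zero]
        _ ≤ X1 ^ |c| * x ^ c := by gcongr
    have h5 : (0 : ℝ) ≤ cnt α X1 := Nat.cast_nonneg _
    nlinarith
  · have h2 := hcon x (hX10.trans h1)
    have h3 : 0 ≤ (cnt α X1 : ℝ) * X1 ^ |c| := by positivity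
    nlinarith

end Pool.Agent.H63.AC
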