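import Pool.Agent.H63.AC.Zero
import Pool.Agent.H63.AC.Temp

/-!
# At least `X^{1/2 - ε}` places with a small power sum, for all large `X`
-/

set_option autoImplicit false

namespace Pool.Agent.H63.AC

open Complex Filter Topology Metric NumberField IsDedekindDomain
open Pool.Agent.W189.TP (DS DS_norm_le DS_diff)
open Pool.Agent.TH861.GL3 (PL qq two_le_qq qq_pos one_lt_qq LL LL_nonneg)
open Pool.Agent.H63.T5 (win local_landau)

variable {K : Type} [Field K] [NumberField K] {S : Finset (HeightOneSpectrum (𝓞 K))} {n : ℕ}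
  {α : PL S → Fin n → ℂ}

/-- the places `v ∉ S` with `N v ≤ N` and `|∑_i α_{i,v}^k| < 1` for some `k ≥ 1` -/
noncomputable def smallN (α : PL S → Fin n → ℂ) (N : ℕ) : Finset (PL S) :=
  ((finite_le N).subset fun (v : PL S) (hv : qq v.1 ≤ N ∧ ∃ k : ℕ, ‖∑ i, α v i ^ (k + 1)‖ < 1) => hv.1).toFinset

theorem mem_smallN {N : ℕ} {v : PL S} :
    v ∈ smallN α N ↔ qq v.1 ≤ N ∧ ∃ k : ℕ, ‖∑ i, α v i ^ (k + 1)‖ < 1 := by
  exact Set.Finite.mem_toFinset _

omit [NumberField K] in
theorem neg_cf_le (x : PL S × ℕ) : max (-cf α x) 0 ≤ 1 := by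
  refine max_le ?_ zero_le_one
  unfold cf
  rw [← neg_div, div_le_one (by positivity)]
  have h1 : (0 : ℝ) ≤ x.2 := Nat.cast_nonneg _
  have h2 := sq_nonneg ‖∑ i, α x.1 i ^ (x.2 + 1)‖
  linarith

omit [NumberField K] in
theorem neg_cf_zero {x : PL S × ℕ} (h : 1 ≤ ‖∑ i, α x.1 i ^ (x.2 + 1)‖) : max (-cf α x) 0 = 0 := by
  refine max_eq_right ?_
  unfold cf
  rw [neg_nonpos]
  refine div_nonneg ?_ (by positivity)
  nlinarith

/-- the sum over the window -/
theorem win_cf_le {σ η : ℝ} (hσ : 0 ≤ σ) {N : ℕ} (hN : 1 ≤ N) :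
    ∑' x, win (cf α) LL σ η (Real.log N) x ≤
      (smallN α N).card * (2 * Real.log N + 1) * Real.exp (-(σ * ((1 - η) * Real.log N))) := by
  classical
  set T : ℝ := Real.log N with hT
  have hN0 : (0 : ℝ) < N := by exact_mod_cast hN
  have hT0 : 0 ≤ T := Real.log_nonneg (by exact_mod_cast hN)
  set F : Finset (PL S × ℕ) := smallN α N ×ˢ Finset.range ⌈2 * T⌉₊ with hF
  have hout : ∀ x ∉ F, win (cf α) LL σ η T x = 0 := by
    intro x hx
    unfold win
    split_ifs with hc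
    · have hlog : 0 < Real.log (qq x.1.1 : ℝ) := Real.log_pos (one_lt_qq x.1.1)
      have hl2 : 1 / 2 < Real.log (qq x.1.1 : ℝ) := by
        have h1 := Real.log_two_gt_d9
        have h2 : Real.log 2 ≤ Real.log (qq x.1.1 : ℝ) :=
          Real.log_le_log (by norm_num) (by exact_mod_cast two_le_qq x.1.1)
        linarith
      have hll : ((x.2 : ℝ) + 1) * Real.log (qq x.1.1 : ℝ) ≤ T := hc.2
      have hk0 : (0 : ℝ) ≤ x.2 := Nat.cast_nonneg _
      have hp : qq x.1.1 ≤ N := by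
        have h1 : Real.log (qq x.1.1 : ℝ) ≤ Real.log N := by
          rw [← hT]
          nlinarith
        have h2 := (Real.log_le_log_iff (qq_pos x.1.1) hN0).1 h1
        exact_mod_cast h2
      have hk : x.2 ∈ Finset.range ⌈2 * T⌉₊ := by
        rw [Finset.mem_range]
        have h1 : (x.2 : ℝ) < 2 * T := by nlinarith
        exact_mod_cast h1.trans_le (Nat.le_ceil _)
      have hx1 : x.1 ∉ smallN α N := fun h => hx (Finset.mem_product.2 ⟨h, hk⟩)
      rw [mem_smallN] at hx1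
      push Not at hx1
      rw [neg_cf_zero (hx1 hp x.2), zero_mul]
    · rfl
  rw [tsum_eq_sum hout]
  have hin : ∀ x ∈ F, win (cf α) LL σ η T x ≤ Real.exp (-(σ * ((1 - η) * T))) := by
    intro x _
    unfold win
    split_ifs with hc
    · calc max (-cf α x) 0 * Real.exp (-(σ * LL x)) ≤ 1 * Real.exp (-(σ * LL x)) := by
            gcongr
            exact neg_cf_le x
        _ = Real.exp (-(σ * LL x)) := one_mul _
        _ ≤ _ := by
            refine Real.exp_le_exp.2 (neg_le_neg (mul_le_mul_of_nonneg_left hc.1.le hσ))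
    · exact (Real.exp_pos _).le
  refine (Finset.sum_le_card_nsmul _ _ _ hin).trans ?_
  rw [nsmul_eq_mul, hF, Finset.card_product, Finset.card_range]
  push_cast
  have h1 : ((⌈2 * T⌉₊ : ℕ) : ℝ) ≤ 2 * T + 1 := (Nat.ceil_lt_add_one (by positivity)).le
  gcongr

/-- **At least `N^{1/2 - ε}` places of norm `≤ N` with a small power sum, for all large `N`.** -/
theorem small_all (hn : 2 ≤ n) (h : Cuspidal α) {ε : ℝ} (hε : 0 < ε) :
    ∃ N0 : ℕ, ∀ N : ℕ, N0 ≤ N → (N : ℝ) ^ (1 / 2 - ε) ≤ (smallN α N).card := by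
  set δ : ℝ := min ε (1 / 4) with hδ
  have hδ0 : 0 < δ := lt_min hε (by norm_num)
  have hδ1 : δ ≤ 1 / 4 := min_le_right _ _
  have hδε : δ ≤ ε := min_le_left _ _
  obtain ⟨β, μ, Q, ω, Ξ, _, hD⟩ := h.dat hn
  have hm : 3 ≤ (n ^ 2 - 1) * Module.finrank ℚ K := by
    have h1 : 0 < Module.finrank ℚ K := Module.finrank_pos
    have h2 : 2 ^ 2 ≤ n ^ 2 := Nat.pow_le_pow_left hn 2
    have h3 : 3 ≤ n ^ 2 - 1 := by omega
    nlinarith
  obtain ⟨ρ, hρ, hzero⟩ := hD.exists_zero hm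
  by_contra hcon
  push Not at hcon
  set σ : ℝ := 1 / 2 - δ / 2 with hσ
  set η : ℝ := δ / 2 with hη
  have hlim : Tendsto (fun T : ℝ => (2 * T + 1) * Real.exp (-(δ / 4 * T))) atTop (𝓝 0) := by
    have h1 : Tendsto (fun T : ℝ => T ^ 1 * Real.exp (-(δ / 4) * T)) atTop (𝓝 0) := by
      have := tendsto_rpow_mul_exp_neg_mul_atTop_nhds_zero 1 (δ / 4) (by positivity)
      simpa using this
    have h2 : Tendsto (fun T : ℝ => Real.exp (-(δ / 4) * T)) atTop (𝓝 0) := by
      have := tendsto_rpow_mul_exp_neg_mul_atTop_nhds_zero 0 (δ / 4) (by positivity)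
      simpa using this
    have h3 := (h1.const_mul 2).add h2
    simp only [mul_zero, add_zero] at h3
    refine h3.congr fun T => ?_
    rw [neg_mul]
    ring
  obtain ⟨T1, hT1⟩ := eventually_atTop.1 (hlim.eventually (gt_mem_nhds (zero_lt_one (α := ℝ))))
  refine local_landau (d := cf α) (L := LL) (U := UU β (fun k => (qq k.1.1 : ℝ)) μ Q Ξ) (V := fun _ => 1) (σ := σ)
    (η := η) (ρ0 := ρ) LL_nonneg (fun t ht => summable_abs h ht)
    (UU_diff hD.one_lt μ hD.posQ hD.diff) (differentiable_const 1)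
    hD.euler' (by linarith) (by positivity) (fun t _ => one_ne_zero) (by linarith) (hD.order_ne hzero) ?_
  intro T0
  obtain ⟨N, hN, hlt⟩ := hcon (max 1 ⌈Real.exp (max T0 T1)⌉₊)
  have hN1 : 1 ≤ N := (le_max_left _ _).trans hN
  have hN0 : (0 : ℝ) < N := by exact_mod_cast hN1
  have hN1' : (1 : ℝ) ≤ N := by exact_mod_cast hN1
  have hT : max T0 T1 ≤ Real.log N := by
    rw [Real.le_log_iff_exp_le hN0]
    refine (Nat.le_ceil _).trans ?_
    exact_mod_cast (le_max_right _ _).trans hN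
  refine ⟨Real.log N, (le_max_left _ _).trans hT, ?_⟩
  have h1 := hT1 _ ((le_max_right _ _).trans hT)
  have hlog0 : 0 ≤ Real.log N := Real.log_nonneg hN1'
  refine (win_cf_le (α := α) (σ := σ) (η := η) (by linarith) hN1).trans (le_trans ?_ h1.le)
  have h2 : ((smallN α N).card : ℝ) ≤ Real.exp ((1 / 2 - δ) * Real.log N) := by
    refine hlt.le.trans ?_
    rw [Real.rpow_def_of_pos hN0]
    refine Real.exp_le_exp.2 ?_
    rw [mul_comm]
    gcongr
  calc ((smallN α N).card : ℝ) * (2 * Real.log N + 1) * Real.exp (-(σ * ((1 - η) * Real.log N)))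
      ≤ Real.exp ((1 / 2 - δ) * Real.log N) * (2 * Real.log N + 1) *
        Real.exp (-(σ * ((1 - η) * Real.log N))) := by gcongr
    _ = (2 * Real.log N + 1) * Real.exp ((1 / 2 - δ) * Real.log N - σ * ((1 - η) * Real.log N)) := by
        rw [sub_eq_add_neg ((1 / 2 - δ) * Real.log N), Real.exp_add]
        ring
    _ ≤ _ := by
        refine mul_le_mul_of_nonneg_left (Real.exp_le_exp.2 ?_) (by positivity)
        rw [hσ, hη]
        nlinarith [mul_nonneg hδ0.le hlog0, mul_nonneg (mul_nonneg hδ0.le hδ0.le) hlog0]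

/-- **`GL(3)`: at least `X^{1/2 - ε}` tempered places of norm `≤ X`, for all large `X`.** -/
theorem tempered_all {α : PL S → Fin 3 → ℂ} (h : Cuspidal α) {ε : ℝ} (hε : 0 < ε) :
    ∃ N0 : ℕ, ∀ N : ℕ, N0 ≤ N → (N : ℝ) ^ (1 / 2 - ε) ≤ {v : PL S | Tempered α v ∧ qq v.1 ≤ N}.ncard := by
  obtain ⟨N0, hN0⟩ := small_all (by norm_num) h hε
  refine ⟨N0, fun N hN => (hN0 N hN).trans ?_⟩
  have h1 : ((smallN α N : Finset (PL S)) : Set (PL S)) ⊆ {v : PL S | Tempered α v ∧ qq v.1 ≤ N} := by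
    intro v hv
    rw [Finset.mem_coe, mem_smallN] at hv
    obtain ⟨h2, k, hk⟩ := hv
    exact ⟨h.tempered_of_small hk, h2⟩
  have h2 := Set.ncard_le_ncard h1 ((finite_le N).subset fun v hv => hv.2)
  rw [Set.ncard_coe_finset] at h2
  exact_mod_cast h2

end Pool.Agent.H63.AC
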