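import Pool.Agent.H63.AC.Stm

/-!
# The main theorem on the abscissa of absolute convergence
-/

set_option autoImplicit false

namespace Pool.Agent.H63.AC

open Complex MeasureTheory Filter Topology

theorem one_sub_ln (b u : ℝ) : 1 - ln b (-u) = ln (1 - b) u := by
  unfold ln
  push_cast
  ring

theorem one_sub_ln' (b u : ℝ) : ln b (-u) = 1 - ln (1 - b) u := by
  unfold ln
  push_cast
  ring

/-- An entire function of order less than two with an asymmetric functional equation whose dual side has finite mass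
on the line `Re s = b` and which is near `1` on some line. -/
theorem core (h_osc : S_osc) (h_up : S_osc → S_up) (h_low : S_low) (h_shift : S_shift) {b A β K K' t0 CM c : ℝ} {d : ℕ}
    {U : ℂ → ℂ} {γ M : ℝ → ℂ} (hA0 : 0 ≤ A) (hA : A < 1 / 2) (hd : 1 ≤ d)
    (hγ : App γ A (fun t => d * (t * Real.log t - β * t))) (hγc : ContinuousOn γ (Set.Ici t0)) (hM : Pm M CM)
    (hU : Differentiable ℂ U) (hgr : ∀ s, ‖U s‖ ≤ Real.exp (K' * (1 + ‖s‖) ^ (3 / 2 : ℝ)))
    (hfe : ∀ t, t0 ≤ t → U (1 - ln b t) = γ t * M t) (hbd : ∀ t, ‖U (1 - ln b t)‖ ≤ K * (1 + |t|))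
    (hc : ∀ u, ‖U (ln c u) - 1‖ ≤ 1 / 4) : False := by
  have hlnc : Continuous (fun t : ℝ => 1 - ln b t) := by
    unfold ln
    fun_prop
  have hG : Continuous (fun t : ℝ => U (1 - ln b t)) := hU.continuous.comp hlnc
  obtain ⟨C, T0, hC⟩ := h_up h_osc b A β K t0 CM d (fun t => U (1 - ln b t)) γ M hA0 (by linarith) hd hγ hγc hM hG hfe hbd
  -- the integrals are large
  have key : ∀ T H : ℝ, T0 ≤ T → 1 ≤ H → 2 * |c - 1| ≤ H → H ≤ T →
      H / 2 ≤ C * T ^ (A + 1 / 2) + C * (T ^ 2 * Real.exp (-(T ^ 2 / (8 * H ^ 2)))) := by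
    intro T H hT hH hHc hHT
    refine le_trans ?_ (hC T H hT hH hHT)
    have h1 : ∫ t : ℝ, U (1 - ln b t) * wt T H (ln b t) =
        ∫ u : ℝ, U (ln (1 - b) u) * wt T H (1 - ln (1 - b) u) := by
      rw [← integral_neg_eq_self (fun t : ℝ => U (1 - ln b t) * wt T H (ln b t))]
      refine integral_congr_ae (Eventually.of_forall fun u => ?_)
      simp only
      rw [one_sub_ln, one_sub_ln']
    rw [h1, h_shift U K' hU hgr (1 - b) c T H hH]
    exact h_low U c T H hU.continuous (by linarith) hHc hc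
  set κ : ℝ := (A + 3 / 2) / 2 with hκ
  have hκ1 : A + 1 / 2 < κ := by rw [hκ]; linarith
  have hκ2 : κ < 1 := by rw [hκ]; linarith
  have hκ0 : 0 < κ := by linarith
  have l1 : Tendsto (fun T : ℝ => T ^ (-(κ - (A + 1 / 2)))) atTop (𝓝 0) :=
    tendsto_rpow_neg_atTop (by linarith)
  have l2 : Tendsto (fun T : ℝ => (T ^ (2 - 2 * κ)) ^ ((2 - κ) / (2 - 2 * κ)) * Real.exp (-(1 / 8) * T ^ (2 - 2 * κ)))
      atTop (𝓝 0) :=
    (tendsto_rpow_mul_exp_neg_mul_atTop_nhds_zero ((2 - κ) / (2 - 2 * κ)) (1 / 8) (by norm_num)).comp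
      (tendsto_rpow_atTop (by linarith : 0 < 2 - 2 * κ))
  have l3 : Tendsto (fun T : ℝ => C * T ^ (-(κ - (A + 1 / 2))) +
      C * ((T ^ (2 - 2 * κ)) ^ ((2 - κ) / (2 - 2 * κ)) * Real.exp (-(1 / 8) * T ^ (2 - 2 * κ)))) atTop (𝓝 0) := by
    have := (l1.const_mul C).add (l2.const_mul C)
    simpa using this
  have l4 : Tendsto (fun T : ℝ => T ^ κ) atTop atTop := tendsto_rpow_atTop hκ0
  obtain ⟨T, hT1, hT2, hT3, hT4⟩ := ((eventually_ge_atTop (max T0 1)).and ((l3.eventually (gt_mem_nhds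
    (by norm_num : (0 : ℝ) < 1 / 2))).and ((l4.eventually_ge_atTop (max 1 (2 * |c - 1|))).and
    (eventually_ge_atTop (1 : ℝ))))).exists
  have hT0 : T0 ≤ T := (le_max_left _ _).trans hT1
  have hTpos : 0 < T := by linarith
  have hHT : T ^ κ ≤ T := by
    calc T ^ κ ≤ T ^ (1 : ℝ) := Real.rpow_le_rpow_of_exponent_le hT4 hκ2.le
      _ = T := Real.rpow_one T
  have h1 := key T (T ^ κ) hT0 ((le_max_left _ _).trans hT3) ((le_max_right _ _).trans hT3) hHT
  have hκT : 0 < T ^ κ := Real.rpow_pos_of_pos hTpos κ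
  have e1 : T ^ (A + 1 / 2) = T ^ κ * T ^ (-(κ - (A + 1 / 2))) := by
    rw [← Real.rpow_add hTpos]
    congr 1
    ring
  have e2 : (T ^ (2 - 2 * κ)) ^ ((2 - κ) / (2 - 2 * κ)) = T ^ (2 - κ) := by
    rw [← Real.rpow_mul hTpos.le]
    congr 1
    have : (2 - 2 * κ) ≠ 0 := by linarith
    rw [mul_div_cancel₀ _ this]
  have e3 : T ^ 2 = T ^ κ * T ^ (2 - κ) := by
    rw [← Real.rpow_add hTpos, ← Real.rpow_natCast]
    congr 1
    push_cast
    ring
  have e4 : T ^ 2 / (8 * (T ^ κ) ^ 2) = 1 / 8 * T ^ (2 - 2 * κ) := by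
    have : T ^ (2 - 2 * κ) = T ^ 2 / (T ^ κ) ^ 2 := by
      rw [Real.rpow_sub hTpos, ← Real.rpow_natCast T 2, ← Real.rpow_natCast (T ^ κ) 2, ← Real.rpow_mul hTpos.le]
      congr 2
      · push_cast
        ring
    rw [this]
    field_simp
  rw [e4] at h1
  rw [e2] at hT2
  have h2 : C * T ^ (A + 1 / 2) + C * (T ^ 2 * Real.exp (-(1 / 8 * T ^ (2 - 2 * κ)))) =
      T ^ κ * (C * T ^ (-(κ - (A + 1 / 2))) + C * (T ^ (2 - κ) * Real.exp (-(1 / 8) * T ^ (2 - 2 * κ)))) := by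
    rw [e1, e3, neg_mul]
    ring
  rw [h2] at h1
  have h3 : T ^ κ * (C * T ^ (-(κ - (A + 1 / 2))) + C * (T ^ (2 - κ) * Real.exp (-(1 / 8) * T ^ (2 - 2 * κ)))) <
      T ^ κ * (1 / 2) := mul_lt_mul_of_pos_left hT2 hκT
  linarith

end Pool.Agent.H63.AC
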