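import Mathlib
import Pool.Graph.R_seed8.TH861.GL3.Defs

/-!
# Cusp forms on `GL(n)` over a number field: what is used of them

`PL S`: the finite places `v ∉ S` of `K`; `qq v`: the norm of `v` (both from the library module
`Pool.Graph.R_seed8.TH861.GL3.Defs`).
-/

set_option autoImplicit false

namespace Pool.Agent.H63.AC

open NumberField IsDedekindDomain
open Pool.Agent.TH861.GL3 (PL qq)

variable {K : Type} [Field K] [NumberField K] {S : Finset (HeightOneSpectrum (𝓞 K))} {n : ℕ}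

/-- `∑_{v ∉ S} ∑_{k ≥ 1} (|∑_i α_{i,v}^k|² - 1) / k · q_v^{-ks}`, the logarithm of the partial adjoint
`L`-function `L^S(s, Π, Ad) = L^S(s, Π × Π~) / ζ_K^S(s)`. -/
noncomputable def logAd (α : PL S → Fin n → ℂ) (s : ℂ) : ℂ :=
  ∑' x : PL S × ℕ, (((‖∑ i, α x.1 i ^ (x.2 + 1)‖ ^ 2 - 1) / ((x.2 : ℝ) + 1) : ℝ) : ℂ) *
    (((qq x.1.1 : ℕ) : ℂ) ^ (-s)) ^ (x.2 + 1)

/-- What is used of a unitary cuspidal automorphic representation `Π` of `GL_n(𝔸_K)`, `K` any number field, unramified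
outside the finite set `S` of finite places, with the Satake parameters `α v`, `v ∉ S`. -/
structure Cuspidal (α : PL S → Fin n → ℂ) : Prop where
  /-- the local components are unitary: the set of the Satake parameters is stable under `z ↦ 1 / conj z` -/
  unitary : ∀ v, (∀ i, α v i ≠ 0) ∧
    Multiset.map (fun i => ((starRingEnd ℂ) (α v i))⁻¹) Finset.univ.val = Multiset.map (α v) Finset.univ.val
  /-- absolute convergence of `L^S(s, Π × Π~)` for `Re s > 1` (Jacquet, Shalika) -/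
  summable : ∀ σ : ℝ, 1 < σ → Summable fun x : PL S × ℕ =>
    ‖∑ i, α x.1 i ^ (x.2 + 1)‖ ^ 2 / ((x.2 : ℝ) + 1) * (((qq x.1.1 : ℕ) : ℝ) ^ (-σ)) ^ (x.2 + 1)
  /-- the complete adjoint `L`-function `Ξ(s) = Λ(s, Π, Ad) = Λ(s, Π × Π~) / Λ_K(s)` is entire, of order one (a bound
  with `3/2` is enough) and `Ξ(1 - s) = ω Ξ(s)`; it is `Q^s` times `(n² - 1) [K : ℚ]` factors `Γ_ℝ(s + μ_j)` (the
  factors at the infinite places), times `∏_{v ∈ S} ∏_j (1 - β_{v,j} q_v^{-s})⁻¹` times `L^S(s, Π, Ad)` -/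
  adjoint : ∃ (Ξ : ℂ → ℂ) (Q : ℝ) (ω : ℂ) (β : HeightOneSpectrum (𝓞 K) → Fin (n ^ 2 - 1) → ℂ)
    (μ : Fin ((n ^ 2 - 1) * Module.finrank ℚ K) → ℂ),
    Differentiable ℂ Ξ ∧ (∃ C : ℝ, ∀ s, ‖Ξ s‖ ≤ Real.exp (C * (1 + ‖s‖) ^ (3 / 2 : ℝ))) ∧ 0 < Q ∧ ω ≠ 0 ∧
    (∀ j, -1 < (μ j).re) ∧ (∀ s, Ξ (1 - s) = ω * Ξ s) ∧
    ∀ s : ℂ, 1 < s.re → Ξ s * ∏ v ∈ S, ∏ j, (1 - β v j * ((qq v : ℕ) : ℂ) ^ (-s)) =
      (Q : ℂ) ^ s * (∏ j, Complex.Gammaℝ (s + μ j)) * Complex.exp (logAd α s)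

/-- `Π_v` is tempered -/
def Tempered (α : PL S → Fin n → ℂ) (v : PL S) : Prop := ∀ i, ‖α v i‖ = 1

end Pool.Agent.H63.AC
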