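import Mathlib

/-!
# Project AC (helper63), second statement file
-/

set_option autoImplicit false

namespace Pool.Agent.H63.AC

open NumberField IsDedekindDomain

/-- **DEG.** The places whose norm is not a prime number contribute a convergent sum for `c > 1/2`. Proof. Let `p` be
the prime number below `v`; then `N v = p^f` (Mathlib: `Ideal.absNorm_eq_pow_inertiaDeg'` and friends), and `f ≥ 2` if
`N v` is not prime, so that `(N v)^(-c) ≤ p^(-2c)`. There are at most `n = [K:ℚ]` places above `p`: the product of the
ideals `v ∣ p` (coprime) divides `(p)`, whose norm is `p^n`, and each has norm `≥ p`. Hence the sum is at most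
`n ∑_p p^(-2c)`, `2 c > 1`. For Lean it may be convenient to prove: for every finite set `F` of such places
`∑_{v ∈ F} (N v)^(-c) ≤ n ∑'_{m ≥ 1} m^(-2c)` (group by `p`, `Finset.sum_fiberwise`), then
`summable_of_sum_le`. -/
def S_deg : Prop :=
  ∀ (K : Type) [Field K] [NumberField K] (c : ℝ), 1 / 2 < c →
    Summable fun v : {v : HeightOneSpectrum (𝓞 K) // ¬ (Ideal.absNorm v.asIdeal).Prime} =>
      (Ideal.absNorm v.1.asIdeal : ℝ) ^ (-c)

end Pool.Agent.H63.AC
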