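import Pool.Agent.H63.AC.Main
import Pool.Agent.H63.AC.Defs
import Pool.Agent.H63.AC.Stm2
import Pool.Graph.R_seed8.TH861.GL3.Main

/-!
# Cusp forms over number fields: the places with `|tr α_v| < 1`
-/

set_option autoImplicit false

namespace Pool.Agent.H63.AC

open NumberField IsDedekindDomain Filter Topology
open Pool.Agent.W189.TP (DS extend)
open Pool.Agent.TH861.GL3 (PL qq two_le_qq qq_pos one_lt_qq qq_rpow_le summable_qq LL LL_nonneg exp_LL rexp_LL
  summable_pp countable_primes)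

variable {K : Type} [Field K] [NumberField K] {S : Finset (HeightOneSpectrum (𝓞 K))} {n : ℕ}

/-- the coefficients -/
noncomputable def cf (α : PL S → Fin n → ℂ) (x : PL S × ℕ) : ℝ :=
  (‖∑ i, α x.1 i ^ (x.2 + 1)‖ ^ 2 - 1) / ((x.2 : ℝ) + 1)

theorem logAd_eq (α : PL S → Fin n → ℂ) (s : ℂ) : logAd α s = DS (cf α) LL s := by
  unfold logAd DS
  refine tsum_congr fun x => ?_
  rw [exp_LL]
  rfl

/-- `max (0, 1 - |a_v|²)` -/
noncomputable def sm (α : PL S → Fin n → ℂ) (v : PL S) : ℝ := max 0 (1 - ‖∑ i, α v i‖ ^ 2)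

omit [NumberField K] in
theorem sm_nonneg (α : PL S → Fin n → ℂ) (v : PL S) : 0 ≤ sm α v := le_max_left _ _

omit [NumberField K] in
theorem sm_le (α : PL S → Fin n → ℂ) (v : PL S) : sm α v ≤ 1 :=
  max_le zero_le_one (by have := sq_nonneg ‖∑ i, α v i‖; linarith)

variable {α : PL S → Fin n → ℂ}

theorem summable_abs (h : Cuspidal α) {t : ℝ} (ht : 1 < t) :
    Summable fun x => |cf α x| * Real.exp (-(t * LL x)) := by
  have h1 := h.summable t ht
  have h2 := summable_pp (S := S) (fun _ => 1) (fun _ => zero_le_one) (by linarith : (0 : ℝ) < t)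
    ((summable_qq ht).congr fun p => (one_mul _).symm)
  refine Summable.of_nonneg_of_le (fun x => by positivity) (fun x => ?_) (h1.add h2)
  rw [rexp_LL, ← add_mul]
  refine mul_le_mul_of_nonneg_right ?_ (by have := (qq_pos x.1.1).le; positivity)
  unfold cf
  have hk : (0 : ℝ) < (x.2 : ℝ) + 1 := by positivity
  rw [abs_le]
  have h3 : 0 ≤ ‖∑ i, α x.1 i ^ (x.2 + 1)‖ ^ 2 := sq_nonneg _
  constructor
  · rw [le_div_iff₀ hk]
    have h4 : 0 ≤ ‖∑ i, α x.1 i ^ (x.2 + 1)‖ ^ 2 / ((x.2 : ℝ) + 1) := by positivity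
    have h5 : (0 : ℝ) ≤ x.2 := Nat.cast_nonneg _
    nlinarith
  · rw [sub_div]
    have h4 : 0 ≤ 1 / ((x.2 : ℝ) + 1) := by positivity
    linarith

/-- the negative part -/
theorem summable_neg {s₁ : ℝ} (hs₁ : 1 / 2 ≤ s₁)
    (hB : Summable fun v : PL S => sm α v * (qq v.1 : ℝ) ^ (-s₁)) {t : ℝ} (ht : s₁ < t) :
    Summable fun x => |min (cf α x) 0| * Real.exp (-(t * LL x)) := by
  have ht0 : 0 < t := by linarith
  have hB' : Summable fun v : PL S => sm α v * (qq v.1 : ℝ) ^ (-t) := by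
    refine Summable.of_nonneg_of_le (fun v => mul_nonneg (sm_nonneg α v)
      (by have := (qq_pos v.1).le; positivity)) (fun v => ?_) hB
    refine mul_le_mul_of_nonneg_left ?_ (sm_nonneg α v)
    exact Real.rpow_le_rpow_of_exponent_le (one_lt_qq v.1).le (by linarith)
  have h1 := summable_pp (fun v => sm α v) (sm_nonneg α) ht0 hB'
  obtain ⟨ε, hε⟩ : ∃ ε : ℝ, ε = (2 * t - 1) / (2 * t) := ⟨_, rfl⟩
  have hε0 : 0 < ε := by rw [hε]; apply div_pos <;> linarith
  have hε1 : ε < 1 := by rw [hε, div_lt_one (by linarith)]; linarith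
  have hεt : t * (2 - ε) = t + 1 / 2 := by rw [hε]; field_simp; ring
  have h2 := summable_pp (S := S) (fun v => (qq v.1 : ℝ) ^ (-(2 * t * (1 - ε))))
    (fun v => by have := (qq_pos v.1).le; positivity) (mul_pos ht0 hε0) (by
      refine (summable_qq (S := S) (by linarith : (1 : ℝ) < t + 1 / 2)).congr fun v => ?_
      rw [← Real.rpow_add (qq_pos v.1)]
      congr 1
      rw [← hεt]
      ring)
  refine Summable.of_nonneg_of_le (fun x => by positivity) (fun x => ?_) (h1.add h2)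
  obtain ⟨v, k⟩ := x
  have hL := LL_nonneg (v, k)
  have e0 : 0 ≤ sm α v * Real.exp (-(t * LL (v, k))) :=
    mul_nonneg (sm_nonneg α v) (Real.exp_pos _).le
  have e1 : 0 ≤ (qq v.1 : ℝ) ^ (-(2 * t * (1 - ε))) * Real.exp (-(t * ε * LL (v, k))) := by
    have := (qq_pos v.1).le
    positivity
  rcases k with _ | k
  · -- first power
    refine le_trans ?_ (le_add_of_nonneg_right e1)
    refine mul_le_mul_of_nonneg_right ?_ (Real.exp_pos _).le
    unfold cf sm
    simp only [zero_add, pow_one, Nat.cast_zero, div_one]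
    rcases le_total (‖∑ i, α v i‖ ^ 2 - 1) 0 with h3 | h3
    · rw [min_eq_left h3, abs_of_nonpos h3]
      exact le_max_of_le_right (by linarith)
    · rw [min_eq_right h3, abs_zero]
      exact le_max_left _ _
  · refine le_trans ?_ (le_add_of_nonneg_left e0)
    have h3 : |min (cf α (v, k + 1)) 0| ≤ 1 := by
      unfold cf
      have hk : (0 : ℝ) < ((k + 1 : ℕ) : ℝ) + 1 := by positivity
      rw [abs_of_nonpos (min_le_right _ _), neg_le, le_min_iff]
      refine ⟨?_, by norm_num⟩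
      simp only
      rw [le_div_iff₀ hk]
      have h4 : 0 ≤ ‖∑ i, α v i ^ (k + 1 + 1)‖ ^ 2 := sq_nonneg _
      have h5 : (0 : ℝ) ≤ ((k + 1 : ℕ) : ℝ) := Nat.cast_nonneg _
      linarith
    refine (mul_le_of_le_one_left (Real.exp_pos _).le h3).trans ?_
    rw [Real.rpow_def_of_pos (qq_pos v.1), ← Real.exp_add, Real.exp_le_exp]
    unfold LL
    simp only
    have h6 : 0 ≤ Real.log (qq v.1 : ℝ) := Real.log_nonneg (one_lt_qq v.1).le
    have h7 : 0 ≤ t * (1 - ε) * (k : ℝ) * Real.log (qq v.1 : ℝ) := by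
      have : 0 ≤ 1 - ε := by linarith
      positivity
    push_cast
    nlinarith

theorem log_two_le (x : PL S × ℕ) : Real.log 2 ≤ LL x := by
  unfold LL
  have h1 : Real.log 2 ≤ Real.log (qq x.1.1 : ℝ) :=
    Real.log_le_log (by norm_num) (by exact_mod_cast two_le_qq x.1.1)
  have h2 : 0 ≤ Real.log 2 := Real.log_nonneg (by norm_num)
  have h3 : (0 : ℝ) ≤ x.2 := Nat.cast_nonneg _
  nlinarith

/-- the data of the abstract theorem -/
theorem Cuspidal.dat (hn : 2 ≤ n) (h : Cuspidal α) : ∃ (β : {v // v ∈ S} × Fin (n ^ 2 - 1) → ℂ)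
    (μ : Fin ((n ^ 2 - 1) * Module.finrank ℚ K) → ℂ) (Q : ℝ) (ω : ℂ) (Ξ : ℂ → ℂ), ω ≠ 0 ∧
    Dat (cf α) LL β (fun k => (qq k.1.1 : ℝ)) ((n ^ 2 - 1) * Module.finrank ℚ K) μ Q ω Ξ := by
  obtain ⟨Ξ, Q, ω, β, μ, hd, hg, hQ, hω, hμ, hfe, he⟩ := h.adjoint
  refine ⟨fun k => β k.1.1 k.2, μ, Q, ω, Ξ, hω, ?_⟩
  refine ⟨log_two_le, fun t ht => summable_abs h ht, fun k => one_lt_qq k.1.1, ?_, hμ, hQ, hd, hg, hfe, fun s hs => ?_⟩
  · have h1 : 0 < Module.finrank ℚ K := Module.finrank_pos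
    have h2 : 2 ^ 2 ≤ n ^ 2 := Nat.pow_le_pow_left hn 2
    exact Nat.mul_pos (by omega) h1
  · rw [← logAd_eq, ← he s hs]
    congr 1
    unfold EE
    rw [Fintype.prod_prod_type, ← Finset.prod_coe_sort S (fun v => ∏ j, (1 - β v j * ((qq v : ℕ) : ℂ) ^ (-s)))]
    refine Finset.prod_congr rfl fun v _ => Finset.prod_congr rfl fun j _ => ?_
    push_cast
    rfl

/-- **Divergence over the places of prime norm.** -/
theorem Cuspidal.diverge (h_pm1 : S_pm1) (h_pm2 : S_pm1 → S_pm2) (h_osc : S_osc) (h_up : S_osc → S_up) (h_low : S_low)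
    (h_shift : S_shift) (h_app : S_app) (h_gamR : S_gamR) (h_deg : S_deg) (hn : 2 ≤ n) (h : Cuspidal α) {c : ℝ}
    (hc : c < 1 / 2 + 1 / (2 * ((n ^ 2 - 1 : ℕ) * Module.finrank ℚ K))) :
    ¬ Summable fun v : {v : PL S // (qq v.1).Prime} => sm α v.1 * (qq v.1.1 : ℝ) ^ (-c) := by
  intro hsum
  obtain ⟨β, μ, Q, ω, Ξ, _, hD⟩ := h.dat hn
  have : Countable (HeightOneSpectrum (𝓞 K)) := countable_primes K
  have hdeg : (1 : ℝ) ≤ ((n ^ 2 - 1 : ℕ) * Module.finrank ℚ K : ℝ) := by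
    have := hD.deg
    exact_mod_cast this
  obtain ⟨c', hc1, hc2⟩ := exists_between (max_lt hc (by
    have : (0 : ℝ) < 1 / (2 * ((n ^ 2 - 1 : ℕ) * Module.finrank ℚ K)) := by positivity
    linarith : (1 : ℝ) / 2 < 1 / 2 + 1 / (2 * ((n ^ 2 - 1 : ℕ) * Module.finrank ℚ K))))
  have hcc : c < c' := (le_max_left _ _).trans_lt hc1
  have hc12 : 1 / 2 < c' := (le_max_right _ _).trans_lt hc1
  -- all places
  have hB : Summable fun v : PL S => sm α v * (qq v.1 : ℝ) ^ (-c') := by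
    have h1 : Summable fun v : {v : PL S // (qq v.1).Prime} => sm α v.1 * (qq v.1.1 : ℝ) ^ (-c') := by
      refine Summable.of_nonneg_of_le (fun v => mul_nonneg (sm_nonneg α _)
        (by have := (qq_pos v.1.1).le; positivity)) (fun v => ?_) hsum
      refine mul_le_mul_of_nonneg_left ?_ (sm_nonneg α _)
      exact Real.rpow_le_rpow_of_exponent_le (one_lt_qq v.1.1).le (by linarith)
    have h2 : Summable fun v : {v : PL S // ¬ (qq v.1).Prime} => sm α v.1 * (qq v.1.1 : ℝ) ^ (-c') := by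
      have h3 := h_deg K c' hc12
      have h4 : Summable fun v : {v : PL S // ¬ (qq v.1).Prime} => (qq v.1.1 : ℝ) ^ (-c') :=
        h3.comp_injective (i := fun v : {v : PL S // ¬ (qq v.1).Prime} =>
          (⟨v.1.1, v.2⟩ : {v : HeightOneSpectrum (𝓞 K) // ¬ (Ideal.absNorm v.asIdeal).Prime})) (by
            intro v w hvw
            have := congrArg Subtype.val hvw
            exact Subtype.ext (Subtype.ext this))
      refine Summable.of_nonneg_of_le (fun v => mul_nonneg (sm_nonneg α _)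
        (by have := (qq_pos v.1.1).le; positivity)) (fun v => ?_) h4
      exact mul_le_of_le_one_left (by have := (qq_pos v.1.1).le; positivity) (sm_le α _)
    have e1 := (summable_subtype_iff_indicator (s := {v : PL S | (qq v.1).Prime})
      (f := fun v : PL S => sm α v * (qq v.1 : ℝ) ^ (-c'))).1 h1
    have e2 := (summable_subtype_iff_indicator (s := {v : PL S | ¬ (qq v.1).Prime})
      (f := fun v : PL S => sm α v * (qq v.1 : ℝ) ^ (-c'))).1 h2
    refine (e1.add e2).congr fun v => ?_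
    by_cases hv : (qq v.1).Prime
    · rw [Set.indicator_of_mem (by exact hv), Set.indicator_of_notMem (by simpa using hv), add_zero]
    · rw [Set.indicator_of_notMem (by exact hv), Set.indicator_of_mem (by exact hv), zero_add]
  have hext := extend (d := cf α) (L := LL) (V := fun _ => 1) LL_nonneg (s₁ := c')
    (fun t ht => summable_abs h ht) (fun t ht => summable_neg hc12.le hB ht)
    ((UU_diff hD.one_lt μ hD.posQ hD.diff).differentiableOn) (differentiableOn_const (1 : ℂ))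
    (fun _ _ => one_ne_zero) hD.euler'
  have h5 := hD.abscissa h_pm1 h_pm2 h_osc h_up h_low h_shift h_app h_gamR hc12.le hext
  have h6 : (((n ^ 2 - 1) * Module.finrank ℚ K : ℕ) : ℝ) = ((n ^ 2 - 1 : ℕ) * Module.finrank ℚ K : ℝ) := by
    push_cast
    ring
  rw [h6] at h5
  have h7 : ((n ^ 2 - 1 : ℕ) * Module.finrank ℚ K : ℝ) * (c' - 1 / 2) < 1 / 2 := by
    have h8 : c' - 1 / 2 < 1 / (2 * ((n ^ 2 - 1 : ℕ) * Module.finrank ℚ K)) := by linarith
    calc ((n ^ 2 - 1 : ℕ) * Module.finrank ℚ K : ℝ) * (c' - 1 / 2)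
        < ((n ^ 2 - 1 : ℕ) * Module.finrank ℚ K : ℝ) * (1 / (2 * ((n ^ 2 - 1 : ℕ) * Module.finrank ℚ K))) :=
          mul_lt_mul_of_pos_left h8 (by linarith)
      _ = 1 / 2 := by
          have h9 : ((n ^ 2 - 1 : ℕ) * Module.finrank ℚ K : ℝ) ≠ 0 := by linarith
          generalize ((n ^ 2 - 1 : ℕ) * Module.finrank ℚ K : ℝ) = D at h9
          field_simp
  linarith

end Pool.Agent.H63.AC
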