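import Pool.Agent.H63.AC.Core
import Pool.Graph.R_seed8.W189.TP.Land
import Pool.Graph.R_pool_sql_team_seeded_1acbe0a2.Y818.FV.GROW
import Pool.Graph.R_seed8.W54.GF.RG
import Pool.Graph.R_seed8.W688.GF.Stirling

/-!
# Entire `L`-functions of degree `m` do not converge absolutely to the left of `1/2 + 1/(2m)`
-/

set_option autoImplicit false

namespace Pool.Agent.H63.AC

open Complex MeasureTheory Filter Topology
open Pool.Agent.W189.TP (DS DS_norm_le DS_diff summ_mono summ_cplx extend_id norm_term)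
open Pool.Agent.Y818.FV (grow_GB grow_mul grow_const grow_prod grow_cpow grow_comp grow_sub grow_of_le)

/-! ### growth -/

theorem grow_invGamma : grow_GB Set.univ (fun s : ℂ => (Gamma s)⁻¹) := by
  obtain ⟨C, hC⟩ := Pool.Agent.W54.GF.rg Pool.Agent.W688.GF.stir
  set C' : ℝ := max C 0 with hC'
  refine ⟨C' + 4 * C', by positivity, fun s _ => (hC s).trans ?_⟩
  have h0 : 0 ≤ ‖s‖ := norm_nonneg s
  set Y : ℝ := (1 + ‖s‖) ^ (3 / 2 : ℝ) with hY
  have hY1 : 1 ≤ Y := Real.one_le_rpow (by linarith) (by norm_num)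
  have hlog : Real.log (‖s‖ + 2) ≤ 4 * (1 + ‖s‖) ^ (1 / 2 : ℝ) := by
    have h1 : Real.log (‖s‖ + 2) ≤ Real.log (2 * (1 + ‖s‖)) := Real.log_le_log (by linarith) (by linarith)
    have h2 := Real.log_le_rpow_div (x := 2 * (1 + ‖s‖)) (ε := 1 / 2) (by linarith) (by norm_num)
    have h3 : (2 * (1 + ‖s‖)) ^ (1 / 2 : ℝ) ≤ 2 * (1 + ‖s‖) ^ (1 / 2 : ℝ) := by
      rw [Real.mul_rpow (by norm_num) (by linarith)]
      gcongr
      calc (2 : ℝ) ^ (1 / 2 : ℝ) ≤ 2 ^ (1 : ℝ) := Real.rpow_le_rpow_of_exponent_le (by norm_num) (by norm_num)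
        _ = 2 := Real.rpow_one 2
    linarith
  have hYe : Y = (1 + ‖s‖) * (1 + ‖s‖) ^ (1 / 2 : ℝ) := by
    rw [hY, show (3 / 2 : ℝ) = 1 + 1 / 2 by norm_num, Real.rpow_add (by linarith), Real.rpow_one]
  have h1 : C * ‖s‖ * Real.log (‖s‖ + 2) ≤ 4 * C' * Y := by
    have hl0 : 0 ≤ Real.log (‖s‖ + 2) := Real.log_nonneg (by linarith)
    calc C * ‖s‖ * Real.log (‖s‖ + 2) ≤ C' * ‖s‖ * Real.log (‖s‖ + 2) := by
          gcongr
          exact le_max_left _ _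
      _ ≤ C' * (1 + ‖s‖) * (4 * (1 + ‖s‖) ^ (1 / 2 : ℝ)) := by
          gcongr
          linarith
      _ = 4 * C' * Y := by rw [hYe]; ring
  have h2 : C ≤ Real.exp (C' * Y) := by
    have h3 := Real.add_one_le_exp (C' * Y)
    have h4 : C' ≤ C' * Y := le_mul_of_one_le_right (le_max_right _ _) hY1
    have h5 : C ≤ C' := le_max_left _ _
    linarith
  calc C * Real.exp (C * ‖s‖ * Real.log (‖s‖ + 2)) ≤ Real.exp (C' * Y) * Real.exp (4 * C' * Y) := by
        gcongr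
    _ = Real.exp ((C' + 4 * C') * Y) := by rw [← Real.exp_add]; congr 1; ring

theorem grow_invGammaR (μ : ℂ) : grow_GB Set.univ (fun s : ℂ => (Gammaℝ (s + μ))⁻¹) := by
  have h1 : grow_GB Set.univ (fun s : ℂ => (Gamma ((s + μ) / 2))⁻¹) :=
    grow_comp grow_invGamma (fun s => (s + μ) / 2) ‖μ‖ (norm_nonneg _) (fun s _ => by
      rw [norm_div, Complex.norm_ofNat]
      have := norm_add_le s μ
      have := norm_nonneg s
      have := norm_nonneg μ
      linarith) (fun s _ => Set.mem_univ _)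
  have h2 : grow_GB Set.univ (fun s : ℂ => (Real.pi : ℂ) ^ ((s + μ) / 2)) :=
    grow_comp (grow_cpow Set.univ Real.pi_pos) (fun s => (s + μ) / 2) ‖μ‖ (norm_nonneg _) (fun s _ => by
      rw [norm_div, Complex.norm_ofNat]
      have := norm_add_le s μ
      have := norm_nonneg s
      have := norm_nonneg μ
      linarith) (fun s _ => Set.mem_univ _)
  refine Pool.Agent.Y818.FV.grow_congr (grow_mul h2 h1) fun s _ => ?_
  rw [Gammaℝ_def, mul_inv, ← cpow_neg]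
  congr 2
  ring

/-- the finitely many factors `∏ (1 - β_k q_k^{-s})` -/
noncomputable def EE {κ : Type*} [Fintype κ] (β : κ → ℂ) (q : κ → ℝ) (s : ℂ) : ℂ :=
  ∏ k, (1 - β k * (q k : ℂ) ^ (-s))

theorem EE_grow {κ : Type*} [Fintype κ] {β : κ → ℂ} {q : κ → ℝ} (hq : ∀ k, 1 < q k) :
    grow_GB Set.univ (EE β q) := by
  refine grow_prod Finset.univ _ fun k _ => grow_sub (grow_const _ _) (grow_mul (grow_const _ _) ?_)
  exact grow_comp (grow_cpow Set.univ (by linarith [hq k] : 0 < q k)) (fun s => -s) 0 le_rfl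
    (fun s _ => by rw [norm_neg, zero_add]) (fun s _ => Set.mem_univ _)

theorem EE_diff {κ : Type*} [Fintype κ] {β : κ → ℂ} {q : κ → ℝ} (hq : ∀ k, 1 < q k) :
    Differentiable ℂ (EE β q) := by
  unfold EE
  refine Differentiable.fun_finsetProd fun k _ => ?_
  have : (q k : ℂ) ≠ 0 := by
    have := hq k
    exact_mod_cast (by linarith : q k ≠ 0)
  intro s
  exact ((differentiableAt_id.neg.const_cpow (Or.inl this)).const_mul _).const_sub _

/-- the entire function `∏ (1 - β_k q_k^{-s}) F(s)` -/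
noncomputable def UU {κ : Type*} [Fintype κ] (β : κ → ℂ) (q : κ → ℝ) {m : ℕ} (μ : Fin m → ℂ) (Q : ℝ) (Ξ : ℂ → ℂ)
    (s : ℂ) : ℂ :=
  Ξ s * EE β q s * (Q : ℂ) ^ (-s) * ∏ j, (Gammaℝ (s + μ j))⁻¹

theorem UU_diff {κ : Type*} [Fintype κ] {β : κ → ℂ} {q : κ → ℝ} (hq : ∀ k, 1 < q k) {m : ℕ} (μ : Fin m → ℂ)
    {Q : ℝ} (hQ : 0 < Q) {Ξ : ℂ → ℂ} (hΞ : Differentiable ℂ Ξ) : Differentiable ℂ (UU β q μ Q Ξ) := by
  unfold UU
  have hQ0 : (Q : ℂ) ≠ 0 := by exact_mod_cast hQ.ne'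
  refine ((hΞ.mul (EE_diff hq)).mul fun s => (differentiableAt_id.neg.const_cpow (Or.inl hQ0))).mul ?_
  refine Differentiable.fun_finsetProd fun j _ => ?_
  exact differentiable_Gammaℝ_inv.comp (differentiable_id.add (differentiable_const _))

theorem UU_grow {κ : Type*} [Fintype κ] {β : κ → ℂ} {q : κ → ℝ} (hq : ∀ k, 1 < q k) {m : ℕ} (μ : Fin m → ℂ)
    {Q : ℝ} (hQ : 0 < Q) {Ξ : ℂ → ℂ} {K : ℝ} (hΞ : ∀ s, ‖Ξ s‖ ≤ Real.exp (K * (1 + ‖s‖) ^ (3 / 2 : ℝ))) :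
    ∃ K' : ℝ, ∀ s, ‖UU β q μ Q Ξ s‖ ≤ Real.exp (K' * (1 + ‖s‖) ^ (3 / 2 : ℝ)) := by
  have h1 : grow_GB Set.univ Ξ := by
    refine ⟨max K 0, le_max_right _ _, fun s _ => (hΞ s).trans (Real.exp_le_exp.2 ?_)⟩
    have : 0 ≤ (1 + ‖s‖) ^ (3 / 2 : ℝ) := by positivity
    exact mul_le_mul_of_nonneg_right (le_max_left _ _) this
  have h2 : grow_GB Set.univ (fun s : ℂ => (Q : ℂ) ^ (-s)) :=
    grow_comp (grow_cpow Set.univ hQ) (fun s => -s) 0 le_rfl
      (fun s _ => by rw [norm_neg, zero_add]) (fun s _ => Set.mem_univ _)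
  obtain ⟨K', _, hK'⟩ := grow_mul (grow_mul (grow_mul h1 (EE_grow (β := β) hq)) h2)
    (grow_prod Finset.univ (fun j s => (Gammaℝ (s + μ j))⁻¹) fun j _ => grow_invGammaR (μ j))
  exact ⟨K', fun s => hK' s (Set.mem_univ s)⟩

/-! ### the data -/

/-- `F(s) = exp (DS d L s)` times finitely many Euler factors, with a functional equation of degree `m` -/
structure Dat {ι κ : Type} [Fintype κ] (d L : ι → ℝ) (β : κ → ℂ) (q : κ → ℝ) (m : ℕ) (μ : Fin m → ℂ) (Q : ℝ) (ω : ℂ)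
    (Ξ : ℂ → ℂ) : Prop where
  two : ∀ i, Real.log 2 ≤ L i
  summ : ∀ t, 1 < t → Summable fun i => |d i| * Real.exp (-(t * L i))
  one_lt : ∀ k, 1 < q k
  deg : 1 ≤ m
  re_mu : ∀ j, -1 < (μ j).re
  posQ : 0 < Q
  diff : Differentiable ℂ Ξ
  grow : ∃ K : ℝ, ∀ s, ‖Ξ s‖ ≤ Real.exp (K * (1 + ‖s‖) ^ (3 / 2 : ℝ))
  fe : ∀ s, Ξ (1 - s) = ω * Ξ s
  euler : ∀ s : ℂ, 1 < s.re → Ξ s * EE β q s = (Q : ℂ) ^ s * (∏ j, Gammaℝ (s + μ j)) * exp (DS d L s)

variable {ι κ : Type} [Fintype κ] {d L : ι → ℝ} {β : κ → ℂ} {q : κ → ℝ} {m : ℕ} {μ : Fin m → ℂ} {Q : ℝ} {ω : ℂ}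
  {Ξ : ℂ → ℂ}

theorem Dat.L_nonneg (h : Dat d L β q m μ Q ω Ξ) (i : ι) : 0 ≤ L i :=
  (Real.log_nonneg (by norm_num)).trans (h.two i)

theorem Dat.euler' (h : Dat d L β q m μ Q ω Ξ) (s : ℂ) (hs : 1 < s.re) :
    exp (DS d L s) * 1 = UU β q μ Q Ξ s := by
  have hQ0 : (Q : ℂ) ≠ 0 := by exact_mod_cast h.posQ.ne'
  have h1 : ∏ j, Gammaℝ (s + μ j) ≠ 0 := by
    refine Finset.prod_ne_zero_iff.2 fun j _ => Gammaℝ_ne_zero_of_re_pos ?_
    have := h.re_mu j
    rw [add_re]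
    linarith
  have h2 : (Q : ℂ) ^ s ≠ 0 := by
    rw [Ne, cpow_eq_zero_iff]
    tauto
  unfold UU
  rw [h.euler s hs, Finset.prod_inv_distrib, cpow_neg]
  field_simp

/-- the identity on the half plane of absolute convergence -/
theorem Dat.extended (h : Dat d L β q m μ Q ω Ξ) {b0 : ℝ}
    (hs : ∀ t, b0 < t → Summable fun i => |d i| * Real.exp (-(t * L i))) (s : ℂ) (hs1 : b0 < s.re) :
    exp (DS d L s) = UU β q μ Q Ξ s := by
  have := extend_id (V := fun _ => 1) h.L_nonneg hs ((UU_diff h.one_lt μ h.posQ h.diff).differentiableOn)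
    (differentiableOn_const (1 : ℂ)) h.euler' s hs1
  rwa [mul_one] at this

/-- the finitely many factors do not vanish in the half plane of absolute convergence -/
theorem Dat.beta_lt (h : Dat d L β q m μ Q ω Ξ) {b0 b : ℝ}
    (hs : ∀ t, b0 < t → Summable fun i => |d i| * Real.exp (-(t * L i))) (hb : b0 < b) (k : κ) :
    ‖β k‖ * q k ^ (-b) < 1 := by
  by_contra hcon
  push Not at hcon
  have hq := h.one_lt k
  have hq0 : 0 < q k := by linarith
  have hqC : (q k : ℂ) ≠ 0 := by exact_mod_cast hq0.ne'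
  have hlog : 0 < Real.log (q k) := Real.log_pos hq
  have hβ : β k ≠ 0 := by
    intro h0
    rw [h0, norm_zero, zero_mul] at hcon
    linarith
  set s : ℂ := log (β k) / (Real.log (q k) : ℂ) with hs'
  have hre : s.re = Real.log ‖β k‖ / Real.log (q k) := by
    rw [hs', div_ofReal_re, log_re]
  have h1 : b ≤ s.re := by
    rw [hre, le_div_iff₀ hlog]
    have h2 : q k ^ b ≤ ‖β k‖ := by
      rw [Real.rpow_neg hq0.le] at hcon
      have h3 : 0 < q k ^ b := Real.rpow_pos_of_pos hq0 b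
      calc q k ^ b = 1 * q k ^ b := (one_mul _).symm
        _ ≤ (‖β k‖ * (q k ^ b)⁻¹) * q k ^ b := by gcongr
        _ = ‖β k‖ := by field_simp
    calc b * Real.log (q k) = Real.log (q k ^ b) := (Real.log_rpow hq0 b).symm
      _ ≤ Real.log ‖β k‖ := Real.log_le_log (Real.rpow_pos_of_pos hq0 b) h2
  have h2 : (1 : ℂ) - β k * (q k : ℂ) ^ (-s) = 0 := by
    rw [cpow_def_of_ne_zero hqC, ← ofReal_log hq0.le, hs']
    have hlC : (Real.log (q k) : ℂ) ≠ 0 := by exact_mod_cast hlog.ne'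
    have h3 : (Real.log (q k) : ℂ) * -(log (β k) / (Real.log (q k) : ℂ)) = -log (β k) := by
      field_simp
    rw [h3, exp_neg, exp_log hβ, mul_inv_cancel₀ hβ, sub_self]
  have h3 : EE β q s = 0 := Finset.prod_eq_zero (Finset.mem_univ k) h2
  have h4 := h.extended hs s (by linarith)
  unfold UU at h4
  rw [h3] at h4
  simp at h4

end Pool.Agent.H63.AC
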