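import Pool.Agent.H63.AC.Line

/-!
# The abscissa of absolute convergence
-/

set_option autoImplicit false

namespace Pool.Agent.H63.AC

open Complex MeasureTheory Filter Topology
open Pool.Agent.W189.TP (DS DS_norm_le DS_diff summ_mono summ_cplx extend_id norm_term)

/-! ### functions of finite mass -/

theorem pm_prod (h1 : S_pm1) {κ : Type*} (A : Finset κ) (f : κ → ℝ → ℂ) (C : κ → ℝ) (hf : ∀ k, Pm (f k) (C k)) :
    Pm (fun t => ∏ k ∈ A, f k t) (∏ k ∈ A, C k) := by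
  classical
  induction A using Finset.induction_on with
  | empty =>
    have := h1.2.1 1
    simpa using this
  | insert a A ha ih =>
    have := h1.2.2.2 (f a) (fun t => ∏ k ∈ A, f k t) (C a) (∏ k ∈ A, C k) (hf a) ih
    simp only [Finset.prod_insert ha]
    exact this

theorem cpow_line {q : ℝ} (hq : 0 < q) (z w : ℂ) (a t : ℝ) (hw : w = z + a * t * I) :
    (q : ℂ) ^ w = (q : ℂ) ^ z * cexp (I * ((a * Real.log q * t : ℝ) : ℂ)) := by
  have hq0 : (q : ℂ) ≠ 0 := by exact_mod_cast hq.ne'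
  rw [hw, cpow_add _ _ hq0]
  congr 1
  rw [cpow_def_of_ne_zero hq0, ← ofReal_log hq.le]
  congr 1
  push_cast
  ring

theorem pm_cpow (h1 : S_pm1) {q : ℝ} (hq : 0 < q) (z : ℂ) (a : ℝ) (w : ℝ → ℂ) (hw : ∀ t, w t = z + a * t * I) :
    Pm (fun t => (q : ℂ) ^ (w t)) ‖(q : ℂ) ^ z‖ := by
  have h2 := h1.2.2.2 (fun _ => (q : ℂ) ^ z) (fun t => cexp (I * ((a * Real.log q * t : ℝ) : ℂ))) ‖(q : ℂ) ^ z‖ 1
    (h1.2.1 _) (h1.1 _)
  rw [mul_one] at h2
  have h3 : (fun t => (q : ℂ) ^ (w t)) = fun t => (q : ℂ) ^ z * cexp (I * ((a * Real.log q * t : ℝ) : ℂ)) := by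
    funext t
    exact cpow_line hq z (w t) a t (hw t)
  rw [h3]
  exact h2

variable {ι κ : Type} [Fintype κ] {d L : ι → ℝ} {β : κ → ℂ} {q : κ → ℝ} {m : ℕ} {μ : Fin m → ℂ} {Q : ℝ} {ω : ℂ}
  {Ξ : ℂ → ℂ}

/-- the dual side of the functional equation, without the Gamma factors -/
noncomputable def MM (d L : ι → ℝ) (β : κ → ℂ) (q : κ → ℝ) (Q : ℝ) (ω : ℂ) (b t : ℝ) : ℂ :=
  ω * (Q : ℂ) ^ (2 * ln b t - 1) * EE β q (1 - ln b t) * (EE β q (ln b t))⁻¹ * exp (DS d L (ln b t))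

theorem Dat.pm_MM (h1 : S_pm1) (h2 : S_pm1 → S_pm2) [Countable ι] (h : Dat d L β q m μ Q ω Ξ) {b0 b : ℝ}
    (hs : ∀ t, b0 < t → Summable fun i => |d i| * Real.exp (-(t * L i))) (hb : b0 < b) :
    ∃ C : ℝ, Pm (MM d L β q Q ω b) C := by
  have hm := h1.2.2.2
  -- the power of `Q`
  have p1 : Pm (fun t => (Q : ℂ) ^ (2 * ln b t - 1)) ‖(Q : ℂ) ^ ((2 * b - 1 : ℝ) : ℂ)‖ :=
    pm_cpow h1 h.posQ _ 2 _ fun t => by
      unfold ln
      push_cast
      ring
  -- the factors at `1 - s`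
  have p2 : Pm (fun t => EE β q (1 - ln b t)) (∏ k, (‖(1 : ℂ)‖ + ‖-β k‖ * ‖(q k : ℂ) ^ ((b - 1 : ℝ) : ℂ)‖)) := by
    have h3 := pm_prod h1 Finset.univ (fun k t => (1 : ℂ) + (-β k) * (q k : ℂ) ^ (-(1 - ln b t)))
      (fun k => ‖(1 : ℂ)‖ + ‖-β k‖ * ‖(q k : ℂ) ^ ((b - 1 : ℝ) : ℂ)‖) (fun k => by
        refine h1.2.2.1 _ _ _ _ (h1.2.1 1) (hm _ _ _ _ (h1.2.1 (-β k)) ?_)
        refine pm_cpow h1 (by linarith [h.one_lt k]) _ 1 _ fun t => ?_
        unfold ln
        push_cast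
        ring)
    have h4 : (fun t => EE β q (1 - ln b t)) =
        fun t => ∏ k, ((1 : ℂ) + (-β k) * (q k : ℂ) ^ (-(1 - ln b t))) := by
      funext t
      unfold EE
      refine Finset.prod_congr rfl fun k _ => ?_
      ring
    rw [h4]
    exact h3
  -- the inverse factors at `s`
  have p3 : Pm (fun t => (EE β q (ln b t))⁻¹) (∏ k, (1 - ‖β k‖ * ‖(q k : ℂ) ^ ((-b : ℝ) : ℂ)‖)⁻¹) := by
    have h3 := pm_prod h1 Finset.univ (fun k t => (1 - β k * (q k : ℂ) ^ (-ln b t))⁻¹)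
      (fun k => (1 - ‖β k‖ * ‖(q k : ℂ) ^ ((-b : ℝ) : ℂ)‖)⁻¹) (fun k => by
        refine (h2 h1).2.2 _ _ (hm _ _ _ _ (h1.2.1 (β k)) ?_) ?_
        · refine pm_cpow h1 (by linarith [h.one_lt k]) _ (-1) _ fun t => ?_
          unfold ln
          push_cast
          ring
        · have hq : 0 < q k := by linarith [h.one_lt k]
          rw [norm_cpow_eq_rpow_re_of_pos hq, ofReal_re]
          exact h.beta_lt hs hb k)
    have h4 : (fun t => (EE β q (ln b t))⁻¹) = fun t => ∏ k, (1 - β k * (q k : ℂ) ^ (-ln b t))⁻¹ := by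
      funext t
      unfold EE
      rw [Finset.prod_inv_distrib]
    rw [h4]
    exact h3
  -- the exponential
  have p4 : Pm (fun t => DS d L (ln b t)) (∑' i, |d i| * Real.exp (-(b * L i))) := by
    refine (h2 h1).1 ι _ _ (fun i => ?_) (hs b hb)
    have h3 := hm (fun _ => ((d i * Real.exp (-(b * L i)) : ℝ) : ℂ)) (fun t => cexp (I * ((-L i * t : ℝ) : ℂ))) _ _
      (h1.2.1 _) (h1.1 _)
    rw [mul_one, norm_real, Real.norm_eq_abs, abs_mul, abs_of_pos (Real.exp_pos _)] at h3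
    have h4 : (fun t : ℝ => (d i : ℂ) * exp (-(ln b t * L i))) =
        fun t : ℝ => ((d i * Real.exp (-(b * L i)) : ℝ) : ℂ) * cexp (I * ((-L i * t : ℝ) : ℂ)) := by
      funext t
      push_cast
      rw [mul_assoc, ← exp_add]
      congr 2
      unfold ln
      ring
    rw [h4]
    exact h3
  have p5 := (h2 h1).2.1 _ _ p4
  exact ⟨_, hm _ _ _ _ (hm _ _ _ _ (hm _ _ _ _ (hm _ _ _ _ (h1.2.1 ω) p1) p2) p3) p5⟩

theorem Dat.fe_line (h : Dat d L β q m μ Q ω Ξ) {b0 b : ℝ}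
    (hs : ∀ t, b0 < t → Summable fun i => |d i| * Real.exp (-(t * L i))) (hb : b0 < b) {t : ℝ}
    (ht : ∀ j, |(μ j).im| < |t|) :
    UU β q μ Q Ξ (1 - ln b t) = (∏ j, (Gammaℝ (ln b t + μ j) / Gammaℝ (1 - ln b t + μ j))) * MM d L β q Q ω b t := by
  have hQ0 : (Q : ℂ) ≠ 0 := by exact_mod_cast h.posQ.ne'
  have hre : (ln b t).re = b := by simp [ln]
  have him : (ln b t).im = t := by simp [ln]
  have h1 := h.extended hs (ln b t) (by rw [hre]; exact hb)
  have hE : EE β q (ln b t) ≠ 0 := by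
    intro h0
    unfold UU at h1
    rw [h0] at h1
    simp at h1
  have hG : ∏ j, Gammaℝ (ln b t + μ j) ≠ 0 := by
    refine Finset.prod_ne_zero_iff.2 fun j _ h0 => ?_
    obtain ⟨n, hn⟩ := Gammaℝ_eq_zero_iff.1 h0
    have h2 := congrArg im hn
    rw [add_im, him] at h2
    simp at h2
    have h3 := ht j
    have h4 : t = -(μ j).im := by linarith
    rw [h4, abs_neg] at h3
    exact lt_irrefl _ h3
  have hQs : (Q : ℂ) ^ (ln b t) ≠ 0 := by
    rw [Ne, cpow_eq_zero_iff]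
    tauto
  unfold MM
  rw [h1]
  unfold UU
  rw [h.fe, Finset.prod_div_distrib, Finset.prod_inv_distrib, Finset.prod_inv_distrib]
  have e1 : (Q : ℂ) ^ (2 * ln b t - 1) = (Q : ℂ) ^ (ln b t) * (Q : ℂ) ^ (-(1 - ln b t)) := by
    rw [← cpow_add _ _ hQ0]
    congr 1
    ring
  rw [e1, cpow_neg (Q : ℂ) (ln b t)]
  set P1 : ℂ := ∏ j, Gammaℝ (ln b t + μ j)
  set P2 : ℂ := ∏ j, Gammaℝ (1 - ln b t + μ j)
  set E1 : ℂ := EE β q (ln b t)
  set q1 : ℂ := (Q : ℂ) ^ (ln b t)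
  calc ω * Ξ (ln b t) * EE β q (1 - ln b t) * (Q : ℂ) ^ (-(1 - ln b t)) * P2⁻¹
      = (P1 * P1⁻¹) * (E1 * E1⁻¹) * (q1 * q1⁻¹) *
        (ω * Ξ (ln b t) * EE β q (1 - ln b t) * (Q : ℂ) ^ (-(1 - ln b t)) * P2⁻¹) := by
          rw [mul_inv_cancel₀ hG, mul_inv_cancel₀ hE, mul_inv_cancel₀ hQs]
          ring
    _ = _ := by
          rw [div_eq_mul_inv]
          ring

/-- **The abscissa of absolute convergence of an entire `L`-function of degree `m` is at least `1/2 + 1/(2m)`.** -/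
theorem Dat.abscissa (h_pm1 : S_pm1) (h_pm2 : S_pm1 → S_pm2) (h_osc : S_osc) (h_up : S_osc → S_up) (h_low : S_low)
    (h_shift : S_shift) (h_app : S_app) (h_gamR : S_gamR) [Countable ι] (h : Dat d L β q m μ Q ω Ξ) {b0 : ℝ}
    (hb0 : 1 / 2 ≤ b0) (hs : ∀ t, b0 < t → Summable fun i => |d i| * Real.exp (-(t * L i))) :
    1 / 2 ≤ m * (b0 - 1 / 2) := by
  by_contra hcon
  push Not at hcon
  have hm : (1 : ℝ) ≤ m := by exact_mod_cast h.deg
  obtain ⟨b, hb1, hb2⟩ : ∃ b, b0 < b ∧ m * (b - 1 / 2) < 1 / 2 := by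
    refine ⟨b0 + (1 / 2 - m * (b0 - 1 / 2)) / (2 * m), ?_, ?_⟩
    · have : 0 < (1 / 2 - m * (b0 - 1 / 2)) / (2 * m) := by
        apply div_pos <;> linarith
      linarith
    · have : (m : ℝ) * (b0 + (1 / 2 - m * (b0 - 1 / 2)) / (2 * m) - 1 / 2) =
          m * (b0 - 1 / 2) + (1 / 2 - m * (b0 - 1 / 2)) / 2 := by
        field_simp
        ring
      rw [this]
      linarith
  have hA0 : 0 ≤ m * (b - 1 / 2) := by
    apply mul_nonneg <;> linarith
  obtain ⟨CM, hCM⟩ := h.pm_MM h_pm1 h_pm2 hs hb1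
  obtain ⟨K0, hK0⟩ := h.grow
  obtain ⟨K', hK'⟩ := UU_grow (β := β) h.one_lt μ h.posQ hK0
  have hUd := UU_diff (β := β) h.one_lt μ h.posQ h.diff
  obtain ⟨g1, g2, g3⟩ := h_gamR
  set γ : ℝ → ℂ := fun t => ∏ j, (Gammaℝ (ln b t + μ j) / Gammaℝ (1 - ln b t + μ j)) with hγ
  have hγA := h_app.2 m (fun j t => Gammaℝ (ln b t + μ j) / Gammaℝ (1 - ln b t + μ j)) (b - 1 / 2) _
    (fun j => g1 b (μ j))
  choose K2 t2 ht2 hK2 using fun j => g2 b (μ j)
  choose t3 ht3 using fun j => g3 b (μ j)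
  -- a common starting point
  set t0 : ℝ := 1 + ∑ j, (|t2 j| + |t3 j| + |(μ j).im|) with ht0
  have hle : ∀ j, |t2 j| + |t3 j| + |(μ j).im| ≤ ∑ j, (|t2 j| + |t3 j| + |(μ j).im|) := fun j =>
    Finset.single_le_sum (f := fun j => |t2 j| + |t3 j| + |(μ j).im|) (fun j _ => by positivity) (Finset.mem_univ j)
  have hS0 : 0 ≤ ∑ j, (|t2 j| + |t3 j| + |(μ j).im|) := Finset.sum_nonneg fun j _ => by positivity
  have ht01 : 1 ≤ t0 := by rw [ht0]; linarith
  have hb2' : ∀ j, t2 j ≤ t0 := fun j => by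
    have := hle j
    have := le_abs_self (t2 j)
    have := abs_nonneg (t3 j)
    have := abs_nonneg (μ j).im
    rw [ht0]
    linarith
  have hb3' : ∀ j, t3 j ≤ t0 := fun j => by
    have := hle j
    have := le_abs_self (t3 j)
    have := abs_nonneg (t2 j)
    have := abs_nonneg (μ j).im
    rw [ht0]
    linarith
  have hbμ : ∀ j, |(μ j).im| < t0 := fun j => by
    have := hle j
    have := abs_nonneg (t2 j)
    have := abs_nonneg (t3 j)
    rw [ht0]
    linarith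
  have hγc : ContinuousOn γ (Set.Ici t0) :=
    continuousOn_finsetProd _ fun j _ => (ht3 j).mono (Set.Ici_subset_Ici.2 (hb3' j))
  have hfe : ∀ t, t0 ≤ |t| → UU β q μ Q Ξ (1 - ln b t) = γ t * MM d L β q Q ω b t := fun t ht =>
    h.fe_line hs hb1 fun j => (hbμ j).trans_le ht
  -- the polynomial bound
  have hCM0 : 0 ≤ CM := (norm_nonneg _).trans (hCM.2.1 0)
  have hbd : ∃ K : ℝ, ∀ t, ‖UU β q μ Q Ξ (1 - ln b t)‖ ≤ K * (1 + |t|) := by
    have hcont : Continuous (fun t : ℝ => UU β q μ Q Ξ (1 - ln b t)) := by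
      refine hUd.continuous.comp ?_
      unfold ln
      fun_prop
    obtain ⟨B, hB⟩ := (isCompact_Icc (a := -t0) (b := t0)).exists_bound_of_continuousOn hcont.continuousOn
    have hKp : 0 ≤ ∏ j, K2 j := by
      refine Finset.prod_nonneg fun j _ => ?_
      have hx : 0 < max 1 (t2 j) := lt_max_of_lt_left one_pos
      have h5 := hK2 j (max 1 (t2 j)) (by rw [abs_of_pos hx]; exact le_max_right _ _)
      have h6 : 0 < |max 1 (t2 j)| ^ (b - 1 / 2) := Real.rpow_pos_of_pos (abs_pos.2 hx.ne') _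
      by_contra h7
      push Not at h7
      have h8 := norm_nonneg (Gammaℝ (ln b (max 1 (t2 j)) + μ j) / Gammaℝ (1 - ln b (max 1 (t2 j)) + μ j))
      nlinarith
    refine ⟨max B 0 + (∏ j, K2 j) * CM, fun t => ?_⟩
    have h1 : 0 ≤ |t| := abs_nonneg t
    rcases le_or_gt t0 |t| with ht | ht
    · rw [hfe t ht, norm_mul]
      have h2 : ‖γ t‖ ≤ (∏ j, K2 j) * (1 + |t|) := by
        rw [hγ, norm_prod]
        calc ∏ j, ‖Gammaℝ (ln b t + μ j) / Gammaℝ (1 - ln b t + μ j)‖ ≤ ∏ j, (K2 j * |t| ^ (b - 1 / 2)) :=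
              Finset.prod_le_prod (fun j _ => norm_nonneg _) fun j _ => hK2 j t ((hb2' j).trans ht)
          _ = (∏ j, K2 j) * |t| ^ (m * (b - 1 / 2)) := by
              rw [Finset.prod_mul_distrib, Finset.prod_const, Finset.card_univ, Fintype.card_fin, ← Real.rpow_natCast,
                ← Real.rpow_mul h1]
              congr 2
              ring
          _ ≤ (∏ j, K2 j) * (1 + |t|) := by
              refine mul_le_mul_of_nonneg_left ?_ hKp
              calc |t| ^ (m * (b - 1 / 2)) ≤ |t| ^ (1 : ℝ) :=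
                    Real.rpow_le_rpow_of_exponent_le (ht01.trans ht) (by linarith)
                _ ≤ 1 + |t| := by rw [Real.rpow_one]; linarith
      calc ‖γ t‖ * ‖MM d L β q Q ω b t‖ ≤ ((∏ j, K2 j) * (1 + |t|)) * CM :=
            mul_le_mul h2 (hCM.2.1 t) (norm_nonneg _) (by positivity)
        _ = (∏ j, K2 j) * CM * (1 + |t|) := by ring
        _ ≤ _ := by
            refine mul_le_mul_of_nonneg_right ?_ (by positivity)
            have := le_max_right B 0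
            linarith
    · have h2 := hB t (by
        rw [Set.mem_Icc]
        exact abs_le.1 ht.le)
      have h3 : 0 ≤ (∏ j, K2 j) * CM := by positivity
      have h4 := le_max_left B 0
      have h5 := le_max_right B 0
      nlinarith
  obtain ⟨K, hK⟩ := hbd
  -- near one on a line far to the right
  set B : ℝ := ∑' i, |d i| * Real.exp (-(2 * L i)) with hB
  have hBs := h.summ 2 (by norm_num)
  have hB0 : 0 ≤ B := tsum_nonneg fun i => by positivity
  have hlim : Tendsto (fun c : ℝ => B * Real.exp (-(c * Real.log 2))) atTop (𝓝 0) := by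
    have h1 : Tendsto (fun c : ℝ => c * Real.log 2) atTop atTop :=
      tendsto_id.atTop_mul_const (Real.log_pos (by norm_num))
    have h2 := (Real.tendsto_exp_neg_atTop_nhds_zero.comp h1).const_mul B
    simpa using h2
  obtain ⟨c', hc1, hc2⟩ := ((hlim.eventually (gt_mem_nhds (by norm_num : (0 : ℝ) < 1 / 8))).and
    (eventually_ge_atTop (0 : ℝ))).exists
  have hc : ∀ u, ‖UU β q μ Q Ξ (ln (c' + 2) u) - 1‖ ≤ 1 / 4 := by
    intro u
    have hre : (ln (c' + 2) u).re = c' + 2 := by simp [ln]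
    rw [← h.extended h.summ (ln (c' + 2) u) (by rw [hre]; linarith)]
    have h1 : ‖DS d L (ln (c' + 2) u)‖ ≤ 1 / 8 := by
      refine (DS_norm_le (d := d) (L := L) (s := ln (c' + 2) u) (by rw [hre]; exact h.summ _ (by linarith))).trans ?_
      rw [hre]
      refine le_trans ?_ hc1.le
      rw [hB, ← tsum_mul_right]
      refine (h.summ _ (by linarith)).tsum_le_tsum (fun i => ?_) (hBs.mul_right _)
      rw [mul_assoc, ← Real.exp_add]
      refine mul_le_mul_of_nonneg_left (Real.exp_le_exp.2 ?_) (abs_nonneg _)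
      have := h.two i
      nlinarith
    refine (norm_exp_sub_one_le (h1.trans (by norm_num))).trans ?_
    linarith
  refine core h_osc h_up h_low h_shift (b := b) (A := m * (b - 1 / 2)) (β := 1 + Real.log (2 * Real.pi)) (K := K)
    (K' := K') (t0 := t0) (CM := CM) (c := c' + 2) (d := m) (U := UU β q μ Q Ξ) (γ := γ) (M := MM d L β q Q ω b)
    hA0 hb2 h.deg ?_ hγc hCM hUd hK' (fun t ht => hfe t (ht.trans (le_abs_self t))) hK hc
  exact hγA

end Pool.Agent.H63.AC
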