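import Pool.Agent.H63.AC.All
import Pool.Agent.H63.T5.Exist

/-!
# A zero in the right half of the critical strip
-/

set_option autoImplicit false

namespace Pool.Agent.H63.AC

open Complex Filter Topology Metric
open Pool.Agent.W189.TP (DS DS_norm_le DS_diff)
open Pool.Agent.H63.T3
open Pool.Agent.H63.T5
open Pool.Agent.Y818.FV (zeta grow ZZ hi mi zeta_dj zeta_exp zeta_kj ord_entire ord_mul ord_zero ord_refl logd bd)

variable {ι κ : Type} [Fintype κ] {d L : ι → ℝ} {β : κ → ℂ} {q : κ → ℝ} {m : ℕ} {μ : Fin m → ℂ} {Q : ℝ} {ω : ℂ}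
  {Ξ : ℂ → ℂ}

theorem fac_diff {b : ℂ} {q : ℝ} (hq : 1 < q) : Differentiable ℂ fun s : ℂ => 1 - b * (q : ℂ) ^ (-s) := by
  have : (q : ℂ) ≠ 0 := by exact_mod_cast (by linarith : q ≠ 0)
  intro s
  exact ((differentiableAt_id.neg.const_cpow (Or.inl this)).const_mul _).const_sub _

/-- one factor far to the right -/
theorem fac_far (b : ℂ) {q : ℝ} (hq : 1 < q) : ∃ Y : ℝ, ∀ y : ℝ, Y ≤ y → (1 - b * (q : ℂ) ^ (-(y : ℂ))) ≠ 0 ∧
    ‖logDeriv (fun s : ℂ => 1 - b * (q : ℂ) ^ (-s)) (y : ℂ)‖ ≤ Real.log q := by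
  have hq0 : 0 < q := by linarith
  have hqC : (q : ℂ) ≠ 0 := by exact_mod_cast hq0.ne'
  have hlog : 0 < Real.log q := Real.log_pos hq
  have h1 : Tendsto (fun y : ℝ => ‖b‖ * q ^ (-y)) atTop (𝓝 0) := by
    have h2 : Tendsto (fun y : ℝ => q ^ (-y)) atTop (𝓝 0) := by
      have h3 := tendsto_rpow_atTop_of_base_lt_one q⁻¹ (by
        have : 0 < q⁻¹ := by positivity
        linarith) (inv_lt_one_of_one_lt₀ hq)
      refine h3.congr fun y => ?_
      rw [Real.inv_rpow hq0.le, Real.rpow_neg hq0.le]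
    simpa using h2.const_mul ‖b‖
  obtain ⟨Y, hY⟩ := eventually_atTop.1 (h1.eventually (gt_mem_nhds (by norm_num : (0 : ℝ) < 1 / 2)))
  refine ⟨Y, fun y hy => ?_⟩
  have h2 := hY y hy
  have h3 : ‖b * (q : ℂ) ^ (-(y : ℂ))‖ < 1 / 2 := by
    rw [norm_mul, norm_cpow_eq_rpow_re_of_pos hq0, neg_re, ofReal_re]
    exact h2
  have h4 : 1 / 2 < ‖1 - b * (q : ℂ) ^ (-(y : ℂ))‖ := by
    have h5 := norm_sub_norm_le (1 : ℂ) (b * (q : ℂ) ^ (-(y : ℂ)))
    rw [norm_one] at h5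
    linarith
  refine ⟨fun h0 => ?_, ?_⟩
  · rw [h0, norm_zero] at h4
    linarith
  · have h5 : HasDerivAt (fun s : ℂ => 1 - b * (q : ℂ) ^ (-s)) (b * ((q : ℂ) ^ (-(y : ℂ)) * Real.log q)) (y : ℂ) := by
      have h6 := ((hasDerivAt_neg (y : ℂ)).const_cpow (c := (q : ℂ)) (Or.inl hqC)).const_mul b |>.const_sub 1
      refine h6.congr_deriv ?_
      rw [← ofReal_log hq0.le]
      ring
    rw [logDeriv_apply, h5.deriv, norm_div, ← mul_assoc, norm_mul, norm_real, Real.norm_of_nonneg hlog.le]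
    rw [div_le_iff₀ (by linarith)]
    nlinarith

/-- all factors far to the right -/
theorem EE_far (β : κ → ℂ) {q : κ → ℝ} (hq : ∀ k, 1 < q k) : ∃ Y : ℝ, ∀ y : ℝ, Y ≤ y → EE β q (y : ℂ) ≠ 0 ∧
    ‖logDeriv (EE β q) (y : ℂ)‖ ≤ ∑ k, Real.log (q k) := by
  choose Y hY using fun k => fac_far (β k) (hq k)
  refine ⟨∑ k, |Y k|, fun y hy => ?_⟩
  have hyk : ∀ k, Y k ≤ y := fun k => (le_abs_self _).trans ((Finset.single_le_sum (f := fun k => |Y k|)
    (fun k _ => abs_nonneg _) (Finset.mem_univ k)).trans hy)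
  refine ⟨Finset.prod_ne_zero_iff.2 fun k _ => (hY k y (hyk k)).1, ?_⟩
  have e1 := logDeriv_prod (s := Finset.univ) (f := fun (k : κ) (s : ℂ) => 1 - β k * (q k : ℂ) ^ (-s))
    (x := (y : ℂ)) (fun k _ => (hY k y (hyk k)).1) (fun k _ => fac_diff (hq k) _)
  have e2 : EE β q = fun s => ∏ k, (1 - β k * (q k : ℂ) ^ (-s)) := rfl
  rw [e2, e1]
  exact norm_sum_le_of_le _ fun k _ => (hY k y (hyk k)).2

theorem Dat.exists_zero (h : Dat d L β q m μ Q ω Ξ) (hm : 3 ≤ m) : ∃ ρ : ℂ, 1 / 2 ≤ ρ.re ∧ UU β q μ Q Ξ ρ = 0 := by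
  classical
  by_contra hcon
  push Not at hcon
  have hΞ1 : ∀ s : ℂ, 1 / 2 ≤ s.re → Ξ s ≠ 0 := by
    intro s hs h0
    apply hcon s hs
    unfold UU
    rw [h0]
    simp
  have hΞ : ∀ s : ℂ, Ξ s ≠ 0 := by
    intro s h0
    rcases le_total (1 / 2) s.re with h1 | h1
    · exact hΞ1 s h1 h0
    · refine hΞ1 (1 - s) (by rw [sub_re, one_re]; linarith) ?_
      rw [h.fe, h0, mul_zero]
  obtain ⟨C, hlog⟩ := logd Unit (fun _ => Ξ) (fun _ => h.diff) (fun _ => ⟨0, hΞ 0⟩) (fun _ => h.grow) (fun _ => 1) ∅ (by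
    intro ρ _
    have h1 : analyticOrderNatAt Ξ ρ = 0 := by
      have h2 : analyticOrderAt Ξ ρ = 0 := ord_zero h.diff (hΞ ρ)
      unfold analyticOrderNatAt
      rw [h2]
      rfl
    simp [h1])
  obtain ⟨M, hM⟩ := deriv_DS_le (d := d) h.L_nonneg h.summ
  obtain ⟨Y, hY⟩ := EE_far β h.one_lt
  obtain ⟨y, hy1, hy2⟩ := gam_grow (fun x : Option (Fin m) => x.elim 0 μ) (by
    rw [Fintype.card_option, Fintype.card_fin]
    omega) (‖C‖ + (∑ k, Real.log (q k)) + ‖(Real.log Q : ℂ)‖ + M + 1) (max 2 Y)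
  have hy2' : 2 ≤ y := (le_max_left _ _).trans hy1
  obtain ⟨hE0, hEl⟩ := hY y ((le_max_right _ _).trans hy1)
  set s : ℂ := (y : ℂ) with hs
  have hsre : 1 < s.re := by rw [hs, ofReal_re]; linarith
  have hfac : ∀ j : Fin m, (Gammaℝ (s + μ j))⁻¹ ≠ 0 := by
    intro j
    refine inv_ne_zero (Gammaℝ_ne_zero_of_re_pos ?_)
    have := h.re_mu j
    rw [add_re]
    linarith
  have hQ0 : (Q : ℂ) ≠ 0 := by exact_mod_cast h.posQ.ne'
  have hQs : (Q : ℂ) ^ (-s) ≠ 0 := by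
    rw [Ne, cpow_eq_zero_iff]
    tauto
  have hP0 : ∏ j, (Gammaℝ (s + μ j))⁻¹ ≠ 0 := Finset.prod_ne_zero_iff.2 fun j _ => hfac j
  have hgd : ∀ j : Fin m, Differentiable ℂ (fun s : ℂ => (Gammaℝ (s + μ j))⁻¹) := fun j =>
    differentiable_Gammaℝ_inv.comp (differentiable_id.add (differentiable_const _))
  have hPd : Differentiable ℂ (fun s : ℂ => ∏ j, (Gammaℝ (s + μ j))⁻¹) := Differentiable.fun_finsetProd fun j _ => hgd j
  have hQd : Differentiable ℂ (fun s : ℂ => (Q : ℂ) ^ (-s)) := fun s => (differentiableAt_id.neg.const_cpow (Or.inl hQ0))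
  -- the logarithmic derivative of `UU`
  have e1 : logDeriv (UU β q μ Q Ξ) s = logDeriv Ξ s + logDeriv (EE β q) s + logDeriv (fun s : ℂ => (Q : ℂ) ^ (-s)) s +
      logDeriv (fun s : ℂ => ∏ j, (Gammaℝ (s + μ j))⁻¹) s := by
    have e2 : UU β q μ Q Ξ = fun s => Ξ s * EE β q s * (Q : ℂ) ^ (-s) * ∏ j, (Gammaℝ (s + μ j))⁻¹ := rfl
    rw [e2, logDeriv_mul s (f := fun s => Ξ s * EE β q s * (Q : ℂ) ^ (-s)) (mul_ne_zero (mul_ne_zero (hΞ s) hE0) hQs) hP0
      (((h.diff s).mul (EE_diff h.one_lt s)).mul (hQd s)) (hPd s),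
      logDeriv_mul s (f := fun s => Ξ s * EE β q s) (mul_ne_zero (hΞ s) hE0) hQs ((h.diff s).mul (EE_diff h.one_lt s)) (hQd s),
      logDeriv_mul s (f := Ξ) (hΞ s) hE0 (h.diff s) (EE_diff h.one_lt s)]
  have e3 : logDeriv (fun s : ℂ => ∏ j, (Gammaℝ (s + μ j))⁻¹) s = - ∑ j, logDeriv Gammaℝ (s + μ j) := by
    rw [logDeriv_prod (s := Finset.univ) (f := fun (j : Fin m) (s : ℂ) => (Gammaℝ (s + μ j))⁻¹) (x := s)
      (fun j _ => hfac j) (fun j _ => hgd j s), ← Finset.sum_neg_distrib]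
    exact Finset.sum_congr rfl fun j _ => logDeriv_inv_Gammaℝ _ _ (hfac j)
  have e4 : logDeriv (fun s : ℂ => (Q : ℂ) ^ (-s)) s = -(Real.log Q : ℂ) := by
    have h6 := (hasDerivAt_neg s).const_cpow (c := (Q : ℂ)) (Or.inl hQ0)
    rw [logDeriv_apply, h6.deriv, ← ofReal_log h.posQ.le]
    field_simp
  have hopen : IsOpen {s : ℂ | 1 < s.re} := isOpen_lt continuous_const Complex.continuous_re
  have hDd : DifferentiableAt ℂ (DS d L) s :=
    (DS_diff (d := d) h.L_nonneg h.summ).differentiableAt (hopen.mem_nhds hsre)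
  have e5 : logDeriv (UU β q μ Q Ξ) s = deriv (DS d L) s := by
    have h1 : UU β q μ Q Ξ =ᶠ[𝓝 s] fun v => exp (DS d L v) := by
      filter_upwards [hopen.mem_nhds hsre] with v hv
      rw [← h.euler' v hv, mul_one]
    rw [logDeriv_apply, h1.deriv_eq, h1.eq_of_nhds, hDd.hasDerivAt.cexp.deriv, mul_div_cancel_left₀ _ (exp_ne_zero _)]
  have e6 := hlog s (fun _ => hΞ s)
  simp only [Finset.univ_unique, PUnit.default_eq_unit, Finset.sum_const, Finset.card_singleton, one_smul,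
    Finset.sum_empty, add_zero, ofReal_one, one_mul] at e6
  rw [Fintype.sum_option] at hy2
  simp only [Option.elim_none, Option.elim_some, add_zero, add_re, add_sub_cancel_left] at hy2
  have e7 : ∑ j, logDeriv Gammaℝ (s + μ j) = C + logDeriv (EE β q) s - (Real.log Q : ℂ) - deriv (DS d L) s := by
    rw [← e6]
    linear_combination e1 - e5 + e3 + e4
  rw [e7] at hy2
  have e9 : ‖C + logDeriv (EE β q) s - (Real.log Q : ℂ) - deriv (DS d L) s‖ ≤
      ‖C‖ + (∑ k, Real.log (q k)) + ‖(Real.log Q : ℂ)‖ + M := by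
    refine (norm_sub_le _ _).trans (add_le_add ((norm_sub_le _ _).trans (add_le_add ((norm_add_le _ _).trans
      (add_le_add le_rfl hEl)) le_rfl)) (hM s ?_))
    rw [hs, ofReal_re]
    exact hy2'
  have e10 := re_le_norm (C + logDeriv (EE β q) s - (Real.log Q : ℂ) - deriv (DS d L) s)
  linarith

theorem Dat.order_ne (h : Dat d L β q m μ Q ω Ξ) {ρ : ℂ} (hρ : UU β q μ Q Ξ ρ = 0) :
    analyticOrderNatAt (UU β q μ Q Ξ) ρ ≠ analyticOrderNatAt (fun _ : ℂ => (1 : ℂ)) ρ := by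
  have hd := UU_diff (β := β) h.one_lt μ h.posQ h.diff
  have h1 : analyticOrderNatAt (fun _ : ℂ => (1 : ℂ)) ρ = 0 := by
    have h2 : analyticOrderAt (fun _ : ℂ => (1 : ℂ)) ρ = 0 := ord_zero (differentiable_const _) one_ne_zero
    unfold analyticOrderNatAt
    rw [h2]
    rfl
  rw [h1]
  have h3 : analyticOrderAt (UU β q μ Q Ξ) ρ ≠ 0 := by
    rw [(hd.analyticAt ρ).analyticOrderAt_ne_zero]
    exact hρ
  have h4 : analyticOrderAt (UU β q μ Q Ξ) ρ ≠ ⊤ := by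
    intro h5
    have han : AnalyticOnNhd ℂ (UU β q μ Q Ξ) Set.univ := fun z _ => hd.analyticAt z
    have h6 := han.eqOn_zero_of_preconnected_of_eventuallyEq_zero isPreconnected_univ (Set.mem_univ ρ)
      (analyticOrderAt_eq_top.1 h5) (Set.mem_univ 2)
    have h7 := h.euler' 2 (by norm_num)
    rw [h6] at h7
    simp at h7
  unfold analyticOrderNatAt
  intro h5
  rw [ENat.toNat_eq_zero] at h5
  tauto

end Pool.Agent.H63.AC
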